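import Pool.Agent.Y773.HK.Defs

/-!
# Ray class characters of number fields of arbitrary signature: definitions

Owner helper773 (zeros of Artin L-functions of degree two and three).  Same definitions as in
`Pool.Agent.Y773.HK.Defs`, without the hypothesis that the field is totally real (in `IsPrimChar`
the element `x = 0` is excluded, which matters when `K` is totally complex and `𝔣 = ⊤`).
-/

set_option autoImplicit false

open NumberField Complex Filter Topology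

namespace Pool.Agent.Y773.G

/-- `ψ` is a primitive ray class character of conductor `𝔣` (times some real places), as a
function on the ideals of `K`, zero on the ideals which are not prime to `𝔣`. -/
structure IsPrimChar (K : Type) [Field K] [NumberField K] (𝔣 : Ideal (𝓞 K))
    (ψ : Ideal (𝓞 K) →*₀ ℂ) : Prop where
  ne_bot : 𝔣 ≠ ⊥
  supp : ∀ 𝔞 : Ideal (𝓞 K), 𝔞 ≠ ⊥ → (ψ 𝔞 ≠ 0 ↔ IsCoprime 𝔞 𝔣)
  ray : ∀ x : 𝓞 K, x ≠ 0 → x - 1 ∈ 𝔣 → TPos K x → ψ (Ideal.span {x}) = 1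
  prim : ∀ 𝔤 : Ideal (𝓞 K), 𝔤 ∣ 𝔣 → 𝔤 ≠ 𝔣 →
    ∃ x : 𝓞 K, x - 1 ∈ 𝔤 ∧ TPos K x ∧ IsCoprime (Ideal.span {x}) 𝔣 ∧ ψ (Ideal.span {x}) ≠ 1

variable {K : Type} [Field K] [NumberField K]

open Classical in
/-- the real embedding of the place `w` if `w` is real, and the absolute value at `w` if `w` is
complex -/
noncomputable def rl (w : InfinitePlace K) : K →*₀ ℝ where
  toFun x := if w.IsReal then (w.embedding x).re else w x
  map_zero' := by split_ifs <;> simp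
  map_one' := by split_ifs <;> simp
  map_mul' x y := by
    split_ifs with h
    · have hx : ((w.embedding x).im : ℝ) = 0 := by
        rw [← InfinitePlace.embedding_of_isReal_apply h, Complex.ofReal_im]
      rw [map_mul, Complex.mul_re, hx, zero_mul, sub_zero]
    · exact map_mul w x y

/-- the sign character `∏ sgn(x_w)^(e_w)` -/
noncomputable def sg (e : InfinitePlace K → ℕ) (x : K) : ℂ :=
  ∏ w, (((SignType.sign (rl w x) : SignType) : ℤ) : ℂ) ^ (e w)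

/-- `η` is a (not necessarily primitive) ray class character modulo `𝔪` and the real places, of
signature `e` (which vanishes at the complex places), as a function on the ideals. -/
structure IsModChar (𝔪 : Ideal (𝓞 K)) (e : InfinitePlace K → ℕ) (η : Ideal (𝓞 K) →*₀ ℂ) : Prop where
  ne_bot : 𝔪 ≠ ⊥
  ne_top : 𝔪 ≠ ⊤
  sig_le : ∀ w, e w ≤ 1
  cpx : ∀ w : InfinitePlace K, w.IsComplex → e w = 0
  supp : ∀ 𝔞 : Ideal (𝓞 K), η 𝔞 ≠ 0 ↔ IsCoprime 𝔞 𝔪
  sig : ∀ x : 𝓞 K, x ≠ 0 → x - 1 ∈ 𝔪 → η (Ideal.span {x}) = sg e (x : K)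

/-- `Ψ_𝔟(x) = η(x 𝔟⁻¹) sgn_e(x)` for `x ∈ 𝔟`, and `0` otherwise -/
noncomputable def Ps (η : Ideal (𝓞 K) →*₀ ℂ) (e : InfinitePlace K → ℕ) (𝔟 : Ideal (𝓞 K))
    (x : 𝓞 K) : ℂ :=
  η (qt 𝔟 x) * sg e (x : K)

open Classical in
/-- the exponents of the gamma factors, indexed by the complex embeddings: `e_w` at the embedding of
a real place `w`, and `0, 1` at the two embeddings of a complex place
(`Γ_ℝ(s) Γ_ℝ(s+1) = Γ_ℂ(s)`) -/
noncomputable def ex (e : InfinitePlace K → ℕ) (φ : K →+* ℂ) : ℕ :=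
  if (InfinitePlace.mk φ).IsReal then e (InfinitePlace.mk φ)
  else if (InfinitePlace.mk φ).embedding = φ then 0 else 1

/-- SIG : the signature of a ray class character. -/
def StSig : Prop := ∀ (K : Type) [Field K] [NumberField K] (𝔣 : Ideal (𝓞 K))
  (ψ : Ideal (𝓞 K) →*₀ ℂ), 𝔣 ≠ ⊥ →
  (∀ x : 𝓞 K, x ≠ 0 → x - 1 ∈ 𝔣 → TPos K x → ψ (Ideal.span {x}) = 1) →
    ∃ e : InfinitePlace K → ℕ, (∀ w, e w ≤ 1) ∧ (∀ w : InfinitePlace K, w.IsComplex → e w = 0) ∧
      ∀ x : 𝓞 K, x ≠ 0 → x - 1 ∈ 𝔣 → ψ (Ideal.span {x}) = sg e (x : K)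

/-- TW : the twist of a primitive ray class character by a primitive Dirichlet character of the
norm, of conductor prime to the discriminant and to the conductor, is primitive. -/
def StTw : Prop := ∀ (K : Type) [Field K] [NumberField K] (𝔣 : Ideal (𝓞 K))
  (ψ : Ideal (𝓞 K) →*₀ ℂ), IsPrimChar K 𝔣 ψ → ∀ (q : ℕ) (χ : DirichletCharacter ℂ q), 1 ≤ q →
    χ.IsPrimitive → Nat.Coprime q (Ideal.absNorm 𝔣) → IsCoprime (q : ℤ) (discr K) →
    IsPrimChar K (𝔣 * Ideal.span {(q : 𝓞 K)}) (tw ψ χ)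

/-- FE : the L-function of a primitive character is entire and has a functional equation. -/
def StFe : Prop := ∀ (K : Type) [Field K] [NumberField K] (𝔣 : Ideal (𝓞 K))
  (ψ : Ideal (𝓞 K) →*₀ ℂ) (e : InfinitePlace K → ℕ), IsPrimChar K 𝔣 ψ → IsModChar 𝔣 e ψ →
    ∃ F : ℂ → ℂ, FEd (((Ideal.absNorm 𝔣 * Ideal.absNorm (differentIdeal ℤ (𝓞 K)) : ℕ) : ℝ)) (ex e) F ∧
      ∀ s : ℂ, 1 < s.re → F s = LI ψ s

/-- ENT : the continuation of the L-function of a (not necessarily primitive) character, the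
trivial one excluded. -/
def StEnt : Prop := ∀ (K : Type) [Field K] [NumberField K] (𝔪 : Ideal (𝓞 K))
  (η : Ideal (𝓞 K) →*₀ ℂ) (e : InfinitePlace K → ℕ), IsModChar 𝔪 e η →
    (∃ 𝔞, IsCoprime 𝔞 𝔪 ∧ η 𝔞 ≠ 1) →
    ∃ F : ℂ → ℂ, Differentiable ℂ F ∧ ∀ s : ℂ, 1 < s.re → F s = LI η s

end Pool.Agent.Y773.G
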