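import Pool.Agent.Y773.HG.Gss2
import Pool.Agent.Y773.HK.Ent

/-! # Entire continuation of the L-functions of ray class characters -/

set_option autoImplicit false
set_option linter.unusedSectionVars false

open NumberField Complex Filter Topology Set MeasureTheory

namespace Pool.Agent.Y773.G

section

variable {K : Type} [Field K] [NumberField K]

lemma IsModChar.const_zero {𝔪 : Ideal (𝓞 K)} {e : InfinitePlace K → ℕ} {η : Ideal (𝓞 K) →*₀ ℂ}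
    (h : IsModChar 𝔪 e η) (hn : ∃ 𝔞, IsCoprime 𝔞 𝔪 ∧ η 𝔞 ≠ 1)
    {D : ℕ} :
    G00 e *
        (∑ c, (Ideal.absNorm (rp K c) : ℂ) * FT D (mm (rp K) 𝔪) (Ps η e (rp K c)) 0) = 0 := by
  classical
  by_cases he : ∀ w, e w = 0
  · have he0 : e = fun _ => 0 := funext he
    subst he0
    have h1 := t_orth K 𝔪 η h hn (rp K) rp_ne_bot mk0_rp (mm (rp K) 𝔪) (mm_pos rp_ne_bot h.ne_bot)
      (mm_mem _ _)
    have h2 : ∀ c, FT D (mm (rp K) 𝔪) (Ps η (fun _ => 0) (rp K c)) 0 =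
        ∑ᶠ r : 𝓞 K ⧸ Ideal.span {((mm (rp K) 𝔪 : ℕ) : 𝓞 K)},
          Ps η (fun _ => 0) (rp K c) (Quotient.out r) := by
      intro c
      unfold FT
      rw [if_pos (fun r => by rw [zero_mul, map_zero]; exact dvd_zero _)]
      refine finsum_congr fun r => ?_
      rw [zero_mul, map_zero, Int.cast_zero, mul_zero, zero_div, Complex.exp_zero, mul_one]
    simp_rw [h2]
    rw [h1, mul_zero]
  · push Not at he
    obtain ⟨w, hw⟩ := he
    rw [G00_of_ne hw, zero_mul]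

lemma IsModChar.per_m {𝔪 : Ideal (𝓞 K)} {e : InfinitePlace K → ℕ} {η : Ideal (𝓞 K) →*₀ ℂ}
    (h : IsModChar 𝔪 e η) {𝔟 : Ideal (𝓞 K)} (h𝔟 : 𝔟 ≠ ⊥) {m : ℕ} (hm : (m : 𝓞 K) ∈ 𝔟 * 𝔪)
    (x z : 𝓞 K) : Ps η e 𝔟 (x + m * z) = Ps η e 𝔟 x := by
  refine h.per h𝔟 ?_
  rw [add_sub_cancel_left]
  exact Ideal.mul_mem_right _ _ hm

/-- the product of the gamma factors inverted is entire -/
lemma differentiable_gam (e : (K →+* ℂ) → ℕ) :
    Differentiable ℂ fun s : ℂ => ∏ φ, (Complex.Gammaℝ (s + e φ))⁻¹ := by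
  classical
  refine Differentiable.fun_finsetProd fun w _ => ?_
  exact Complex.differentiable_Gammaℝ_inv.comp (differentiable_id.add_const _)

lemma gam_ne_zero (e : (K →+* ℂ) → ℕ) {s : ℂ} (hs : 0 < s.re) :
    ∏ φ, Complex.Gammaℝ (s + e φ) ≠ 0 := by
  refine Finset.prod_ne_zero_iff.mpr fun w _ => ?_
  refine Complex.Gammaℝ_ne_zero_of_re_pos ?_
  simp only [add_re, natCast_re]
  positivity

lemma gam_ne_zero' (e : (K →+* ℂ) → ℕ) {s : ℂ} (hs : s.im ≠ 0) :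
    ∏ φ, Complex.Gammaℝ (s + e φ) ≠ 0 := by
  refine Finset.prod_ne_zero_iff.mpr fun w _ => ?_
  rw [Ne, Complex.Gammaℝ_eq_zero_iff]
  rintro ⟨n, hn⟩
  apply hs
  have := congrArg Complex.im hn
  simpa using this

lemma ex_le {e : InfinitePlace K → ℕ} (he : ∀ w, e w ≤ 1) (φ : K →+* ℂ) : ex e φ ≤ 1 := by
  classical
  unfold ex
  split_ifs
  · exact he _
  · norm_num
  · norm_num

/-- **Entire continuation** -/
theorem LI_entire {𝔪 : Ideal (𝓞 K)} {e : InfinitePlace K → ℕ} {η : Ideal (𝓞 K) →*₀ ℂ}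
    (h : IsModChar 𝔪 e η) (hn : ∃ 𝔞, IsCoprime 𝔞 𝔪 ∧ η 𝔞 ≠ 1) :
    ∃ F : ℂ → ℂ, Differentiable ℂ F ∧ ∀ s : ℂ, 1 < s.re → F s = LI η s := by
  obtain ⟨V, hV, hfe⟩ := fam_fe K
  obtain ⟨C, hC, hmel⟩ := mellin_Ftot K
  have hN : ∀ c, Nice e (Ps η e (rp K c)) := fun c => h.nice (rp_ne_bot c)
  obtain ⟨h1, h2, -⟩ := hfe (rp K) reps_rp e η hN (mm (rp K) 𝔪) (Dd K) (mm_pos rp_ne_bot h.ne_bot)
    Dd_pos Dd_mem (fun c => h.per_m (rp_ne_bot c) (mm_mem _ _ c)) (h.const_zero hn)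
  refine ⟨fun s => (C : ℂ)⁻¹ * (mellin (Ftot η e (rp K)) s * ∏ φ : K →+* ℂ, (Complex.Gammaℝ (s + ex e φ))⁻¹),
    (h2.mul (differentiable_gam (ex e))).const_mul _, fun s hs => ?_⟩
  simp only
  rw [(hmel (rp K) reps_rp e η h.norm_le_one hN s hs).2, Finset.prod_inv_distrib]
  have h3 := gam_ne_zero (ex e) (s := s) (by linarith)
  have hC' : (C : ℂ) ≠ 0 := by exact_mod_cast hC.ne'
  field_simp

end

theorem t_ent : StEnt := fun _ _ _ _ _ _ h hn => LI_entire h hn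

end Pool.Agent.Y773.G
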