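import Pool.Agent.Y773.HG.Ent
import Pool.Agent.Y773.HK.FeK
import Pool.Agent.Y772.DK.Main

/-! # The functional equation for primitive ray class characters -/

set_option autoImplicit false
set_option linter.unusedSectionVars false

open NumberField Complex Filter Topology Set MeasureTheory

namespace Pool.Agent.Y773.G

section

variable {K : Type} [Field K] [NumberField K]

lemma th_conj (e : InfinitePlace K → ℕ) (Ψ : 𝓞 K → ℂ) (a : ℂ) (y : InfinitePlace K → ℝ) :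
    th e (fun x => a * (starRingEnd ℂ) (Ψ x)) y = a * (starRingEnd ℂ) (th e Ψ y) := by
  unfold th
  rw [Complex.conj_tsum, ← tsum_mul_left]
  refine tsum_congr fun x => ?_
  rw [map_mul, Complex.conj_ofReal]
  ring

lemma hf_conj (e : InfinitePlace K → ℕ) (Ψ : 𝓞 K → ℂ) (a : ℂ) (t : ℝ) :
    hf e (fun x => a * (starRingEnd ℂ) (Ψ x)) t = a * (starRingEnd ℂ) (hf e Ψ t) := by
  unfold hf
  simp_rw [th_conj]
  rw [integral_const_mul]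
  congr 1
  exact integral_conj

/-- the complementary ideals -/
lemma exists_compl {𝔣 𝔟 : Ideal (𝓞 K)} {m D : ℕ} (hm : (m : 𝓞 K) ∈ 𝔟 * 𝔣)
    (hD : (D : 𝓞 K) ∈ differentIdeal ℤ (𝓞 K)) :
    ∃ 𝔟' : Ideal (𝓞 K), 𝔟' * (𝔟 * 𝔣 * differentIdeal ℤ (𝓞 K)) = Ideal.span {((m * D : ℕ) : 𝓞 K)} := by
  have h1 : ((m * D : ℕ) : 𝓞 K) ∈ 𝔟 * 𝔣 * differentIdeal ℤ (𝓞 K) := by
    push_cast
    exact Ideal.mul_mem_mul hm hD
  obtain ⟨𝔟', h⟩ := mem_iff_exists_mul.mp h1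
  exact ⟨𝔟', h⟩

lemma reps_compl {𝔣 : Ideal (𝓞 K)} (h𝔣 : 𝔣 ≠ ⊥) {𝔟 𝔟' : ClassGroup (𝓞 K) → Ideal (𝓞 K)}
    (h : Reps 𝔟) {k : ℕ} (hk : 0 < k)
    (hid : ∀ c, 𝔟' c * (𝔟 c * 𝔣 * differentIdeal ℤ (𝓞 K)) = Ideal.span {(k : 𝓞 K)}) : Reps 𝔟' := by
  have h𝔡 : differentIdeal ℤ (𝓞 K) ≠ ⊥ := differentIdeal_ne_bot
  have h𝔟' : ∀ c, 𝔟' c ≠ ⊥ := by
    intro c h1
    have := hid c
    rw [h1, Ideal.bot_mul] at this
    exact span_m_ne_bot hk this.symm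
  refine ⟨h𝔟', ?_⟩
  have hfd : 𝔣 * differentIdeal ℤ (𝓞 K) ≠ 0 := mul_ne_zero h𝔣 h𝔡
  set g : ClassGroup (𝓞 K) :=
    ClassGroup.mk0 ⟨𝔣 * differentIdeal ℤ (𝓞 K), mem_nonZeroDivisors_of_ne_zero hfd⟩ with hg
  have h1 : ∀ c, ClassGroup.mk0 ⟨𝔟' c, mem_nonZeroDivisors_of_ne_zero (h𝔟' c)⟩ =
      (ClassGroup.mk0 ⟨𝔟 c, mem_nonZeroDivisors_of_ne_zero (h.ne_bot c)⟩ * g)⁻¹ := by
    intro c
    rw [eq_inv_iff_mul_eq_one, hg, ← map_mul, ← map_mul]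
    have h2 : (𝔟' c * (𝔟 c * (𝔣 * differentIdeal ℤ (𝓞 K)))) ≠ 0 :=
      mul_ne_zero (h𝔟' c) (mul_ne_zero (h.ne_bot c) hfd)
    refine (ClassGroup.mk0_eq_one_iff (mem_nonZeroDivisors_of_ne_zero h2)).mpr ?_
    rw [← mul_assoc (𝔟 c), hid c]
    exact ⟨_, rfl⟩
  simp_rw [h1]
  have h3 : Function.Bijective fun c => ClassGroup.mk0 ⟨𝔟 c, mem_nonZeroDivisors_of_ne_zero (h.ne_bot c)⟩ :=
    h.bij
  exact (Equiv.inv _).bijective.comp ((Equiv.mulRight g).bijective.comp h3)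

/-- the dual function in terms of the original one -/
lemma Gtot_eq {𝔣 : Ideal (𝓞 K)} {ψ : Ideal (𝓞 K) →*₀ ℂ} {e : InfinitePlace K → ℕ}
    (h : IsModChar 𝔣 e ψ) {𝔟 𝔟' : ClassGroup (𝓞 K) → Ideal (𝓞 K)}
    (h𝔟 : Reps 𝔟) (h𝔟' : Reps 𝔟') {m D : ℕ}
    (hid : ∀ c, 𝔟' c * (𝔟 c * 𝔣 * differentIdeal ℤ (𝓞 K)) = Ideal.span {((m * D : ℕ) : 𝓞 K)})
    {τ : ℂ} (hτ : ∀ c x, FT D m (Ps ψ e (𝔟 c)) x = τ * ((m : ℂ) ^ (Module.finrank ℚ K) /
          ((Ideal.absNorm (𝔟 c) : ℂ) * (Ideal.absNorm 𝔣 : ℂ))) * (starRingEnd ℂ) (Ps ψ e (𝔟' c) x))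
    (t : ℝ) : Gtot ψ e 𝔟 m D t = (τ * ((m : ℂ) ^ (Module.finrank ℚ K) / (Ideal.absNorm 𝔣 : ℂ))) *
      (starRingEnd ℂ) (Ftot ψ e 𝔟'
        (((Ideal.absNorm 𝔣 * Ideal.absNorm (differentIdeal ℤ (𝓞 K)) : ℕ) : ℝ)⁻¹ * t)) := by
  have h𝔡 : differentIdeal ℤ (𝓞 K) ≠ ⊥ := differentIdeal_ne_bot
  unfold Gtot Ftot
  rw [map_sum, Finset.mul_sum]
  refine Finset.sum_congr rfl fun c _ => ?_
  have hNb : (Ideal.absNorm (𝔟 c) : ℂ) ≠ 0 := by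
    exact_mod_cast (fun h1 => h𝔟.ne_bot c (Ideal.absNorm_eq_zero_iff.mp h1))
  have hNbR : (Ideal.absNorm (𝔟 c) : ℝ) ≠ 0 := by
    exact_mod_cast (fun h1 => h𝔟.ne_bot c (Ideal.absNorm_eq_zero_iff.mp h1))
  have hNb'R : (Ideal.absNorm (𝔟' c) : ℝ) ≠ 0 := by
    exact_mod_cast (fun h1 => h𝔟'.ne_bot c (Ideal.absNorm_eq_zero_iff.mp h1))
  have hNfR : (Ideal.absNorm 𝔣 : ℝ) ≠ 0 := by
    exact_mod_cast (fun h1 => h.ne_bot (Ideal.absNorm_eq_zero_iff.mp h1))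
  have hNf : (Ideal.absNorm 𝔣 : ℂ) ≠ 0 := by
    exact_mod_cast (fun h1 => h.ne_bot (Ideal.absNorm_eq_zero_iff.mp h1))
  have hNdR : (Ideal.absNorm (differentIdeal ℤ (𝓞 K)) : ℝ) ≠ 0 := by
    exact_mod_cast (fun h1 => h𝔡 (Ideal.absNorm_eq_zero_iff.mp h1))
  have h1 : rz (FT D m (Ps ψ e (𝔟 c))) = fun x => (τ * ((m : ℂ) ^ (Module.finrank ℚ K) /
          ((Ideal.absNorm (𝔟 c) : ℂ) * (Ideal.absNorm 𝔣 : ℂ)))) *
            (starRingEnd ℂ) (Ps ψ e (𝔟' c) x) := by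
    funext x
    unfold rz
    split_ifs with hx
    · rw [hx, (h.nice (h𝔟'.ne_bot c)).zero, map_zero, mul_zero]
    · exact hτ c x
  have h2 : t * (Ideal.absNorm (𝔟 c) : ℝ) / ((m * D : ℕ) : ℝ) ^ (Module.finrank ℚ K) =
      (Ideal.absNorm (𝔟' c) : ℝ)⁻¹ *
        (((Ideal.absNorm 𝔣 * Ideal.absNorm (differentIdeal ℤ (𝓞 K)) : ℕ) : ℝ)⁻¹ * t) := by
    have h3 := congrArg Ideal.absNorm (hid c)
    rw [map_mul, map_mul, map_mul, absNorm_span_nat] at h3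
    have h4 : ((m * D : ℕ) : ℝ) ^ (Module.finrank ℚ K) = (Ideal.absNorm (𝔟' c) : ℝ) *
        ((Ideal.absNorm (𝔟 c) : ℝ) * (Ideal.absNorm 𝔣 : ℝ) *
          (Ideal.absNorm (differentIdeal ℤ (𝓞 K)) : ℝ)) := by exact_mod_cast h3.symm
    rw [h4]
    push_cast
    field_simp
  rw [h1, h2, hf_conj]
  field_simp

/-- **The functional equation for primitive ray class characters** -/
theorem fe_prim {𝔣 : Ideal (𝓞 K)} {ψ : Ideal (𝓞 K) →*₀ ℂ} {e : InfinitePlace K → ℕ}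
    (hp : IsPrimChar K 𝔣 ψ) (h : IsModChar 𝔣 e ψ) :
    ∃ F : ℂ → ℂ, FEd (((Ideal.absNorm 𝔣 * Ideal.absNorm (differentIdeal ℤ (𝓞 K)) : ℕ) : ℝ)) (ex e) F ∧
      ∀ s : ℂ, 1 < s.re → F s = LI ψ s := by
  classical
  have h𝔡 : differentIdeal ℤ (𝓞 K) ≠ ⊥ := differentIdeal_ne_bot
  -- the character is not trivial
  have hn : ∃ 𝔞, IsCoprime 𝔞 𝔣 ∧ ψ 𝔞 ≠ 1 := by
    have hne : (⊤ : Ideal (𝓞 K)) ≠ 𝔣 := fun h1 => h.ne_top h1.symm
    obtain ⟨x, -, -, hx, hx2⟩ := hp.prim ⊤ (by rw [← Ideal.one_eq_top]; exact one_dvd _) hne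
    exact ⟨_, hx, hx2⟩
  obtain ⟨V, hV, hfe⟩ := fam_fe K
  obtain ⟨C, hC, hmel⟩ := mellin_Ftot K
  obtain ⟨τ, hτ⟩ := gauss_main 𝔣 ψ e hp h
  set m := mm (rp K) 𝔣 with hm
  set D := Dd K with hD
  have hm0 : 0 < m := mm_pos rp_ne_bot h.ne_bot
  have hD0 : 0 < D := Dd_pos
  have hN : ∀ c, Nice e (Ps ψ e (rp K c)) := fun c => h.nice (rp_ne_bot c)
  obtain ⟨h1, h2, h3⟩ := hfe (rp K) reps_rp e ψ hN m D hm0
    hD0 Dd_mem (fun c => h.per_m (rp_ne_bot c) (mm_mem _ _ c)) (h.const_zero hn)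
  choose 𝔟' h𝔟' using fun c => exists_compl (𝔣 := 𝔣) (𝔟 := rp K c) (m := m) (D := D)
    (mm_mem _ _ c) Dd_mem
  have hR' : Reps 𝔟' := reps_compl h.ne_bot reps_rp (Nat.mul_pos hm0 hD0) h𝔟'
  have hN' : ∀ c, Nice e (Ps ψ e (𝔟' c)) := fun c => h.nice (hR'.ne_bot c)
  set R : ℝ := ((Ideal.absNorm 𝔣 * Ideal.absNorm (differentIdeal ℤ (𝓞 K)) : ℕ) : ℝ) with hRdef
  have hR1 : 1 ≤ R := by
    rw [hRdef]
    have h4 : Ideal.absNorm 𝔣 * Ideal.absNorm (differentIdeal ℤ (𝓞 K)) ≠ 0 :=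
      mul_ne_zero (fun h1 => h.ne_bot (Ideal.absNorm_eq_zero_iff.mp h1))
        (fun h1 => h𝔡 (Ideal.absNorm_eq_zero_iff.mp h1))
    exact_mod_cast Nat.one_le_iff_ne_zero.mpr h4
  have hR0 : 0 < R := by linarith
  have hRc : (R : ℂ) ≠ 0 := by exact_mod_cast hR0.ne'
  set M := mellin (Ftot ψ e (rp K)) with hM
  -- the mellin transform for the complementary representatives
  have hdM' : Differentiable ℂ (mellin (Ftot ψ e 𝔟')) := by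
    have hz : G00 e *
        (∑ c, (Ideal.absNorm (𝔟' c) : ℂ) * FT D (mm 𝔟' 𝔣) (Ps ψ e (𝔟' c)) 0) = 0 := by
      by_cases he : ∀ w, e w = 0
      · have : ∀ c, FT D (mm 𝔟' 𝔣) (Ps ψ e (𝔟' c)) 0 = 0 := by
          intro c
          obtain ⟨𝔟'', h𝔟''⟩ := exists_compl (𝔣 := 𝔣) (𝔟 := 𝔟' c) (m := mm 𝔟' 𝔣) (D := D)
            (mm_mem _ _ c) Dd_mem
          rw [hτ (𝔟' c) 𝔟'' (mm 𝔟' 𝔣) D (mm_pos hR'.ne_bot h.ne_bot) hD0 h𝔟'' (mm_mem _ _ c) Dd_mem]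
          have h5 : 𝔟'' ≠ ⊥ := by
            rintro rfl
            rw [Ideal.bot_mul] at h𝔟''
            exact span_m_ne_bot (Nat.mul_pos (mm_pos hR'.ne_bot h.ne_bot) hD0) h𝔟''.symm
          rw [(h.nice h5).zero, map_zero, mul_zero]
        simp_rw [this]
        simp
      · push Not at he
        obtain ⟨w, hw⟩ := he
        rw [G00_of_ne hw, zero_mul]
    exact (hfe 𝔟' hR' e ψ hN' (mm 𝔟' 𝔣) D (mm_pos hR'.ne_bot h.ne_bot) hD0 Dd_mem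
      (fun c => h.per_m (hR'.ne_bot c) (mm_mem _ _ c)) hz).2.1
  have hMM : mellin (Ftot ψ e 𝔟') = M := by
    refine entire_eq hdM' h2 fun s hs => ?_
    rw [hM, (hmel 𝔟' hR' e ψ h.norm_le_one hN' s hs).2,
      (hmel (rp K) reps_rp e ψ h.norm_le_one hN s hs).2]
  -- the functional equation
  set κ : ℂ := ((V⁻¹ : ℝ) : ℂ) * ((m : ℂ) ^ (Module.finrank ℚ K))⁻¹ * (-I) ^ (∑ φ : K →+* ℂ, eM e φ) with hκ
  set A : ℂ := τ * ((m : ℂ) ^ (Module.finrank ℚ K) / (Ideal.absNorm 𝔣 : ℂ)) with hA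
  have hG : ∀ s, mellin (Gtot ψ e (rp K) m D) s =
      A * ((R : ℂ) ^ s * (starRingEnd ℂ) (M ((starRingEnd ℂ) s))) := by
    intro s
    have h5 : Gtot ψ e (rp K) m D = fun t => A • (starRingEnd ℂ) (Ftot ψ e 𝔟' (R⁻¹ * t)) := by
      funext t
      rw [smul_eq_mul]
      exact Gtot_eq h reps_rp hR' h𝔟' (fun c x => hτ (rp K c) (𝔟' c) m D hm0 hD0 (h𝔟' c)
        (mm_mem _ _ c) Dd_mem x) t
    rw [h5, mellin_const_smul, smul_eq_mul, mellin_conj (fun t => Ftot ψ e 𝔟' (R⁻¹ * t)),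
      mellin_comp_mul_left _ _ (inv_pos.mpr hR0), hMM, smul_eq_mul, map_mul]
    congr 2
    have h6 : (((R⁻¹ : ℝ) : ℂ)) ^ (-(starRingEnd ℂ) s) = (R : ℂ) ^ ((starRingEnd ℂ) s) := by
      rw [Complex.cpow_def_of_ne_zero (by exact_mod_cast (inv_pos.mpr hR0).ne'),
        ← Complex.ofReal_log (inv_pos.mpr hR0).le, Real.log_inv,
        Complex.cpow_def_of_ne_zero hRc, ← Complex.ofReal_log hR0.le]
      congr 1
      push_cast
      ring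
    rw [h6]
    have h7 : ((R : ℝ) : ℂ).arg ≠ Real.pi := by
      rw [Complex.arg_ofReal_of_nonneg hR0.le]
      exact Real.pi_ne_zero.symm
    have h8 := Complex.conj_cpow (R : ℂ) s h7
    rw [Complex.conj_ofReal] at h8
    exact h8.symm
  set L : ℂ → ℂ := fun s => (R : ℂ) ^ (s / 2) * M s with hL
  set w : ℂ := κ * A * (R : ℂ) ^ (1 / 2 : ℂ) with hw
  have hconjR : ∀ z : ℂ, (starRingEnd ℂ) ((R : ℂ) ^ z) = (R : ℂ) ^ ((starRingEnd ℂ) z) := by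
    intro z
    have h7 : ((R : ℝ) : ℂ).arg ≠ Real.pi := by
      rw [Complex.arg_ofReal_of_nonneg hR0.le]
      exact Real.pi_ne_zero.symm
    have h8 := Complex.conj_cpow (R : ℂ) ((starRingEnd ℂ) z) h7
    rw [Complex.conj_ofReal, Complex.conj_conj] at h8
    exact h8.symm
  have hLfe : ∀ s, L s = w * (starRingEnd ℂ) (L (1 - (starRingEnd ℂ) s)) := by
    intro s
    have h5 := h3 (1 - s)
    rw [sub_sub_cancel, hG, map_sub, map_one] at h5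
    rw [hL]
    simp only
    rw [h5, map_mul, hconjR, hw]
    have h6 : (starRingEnd ℂ) ((1 - (starRingEnd ℂ) s) / 2) = (1 - s) / 2 := by
      have h20 : (starRingEnd ℂ) (2 : ℂ) = 2 := map_ofNat (starRingEnd ℂ) 2
      rw [map_div₀, map_sub, map_one, Complex.conj_conj, h20]
    rw [h6]
    have h7 : (R : ℂ) ^ (s / 2) * (R : ℂ) ^ (1 - s) = (R : ℂ) ^ (1 / 2 : ℂ) * (R : ℂ) ^ ((1 - s) / 2) := by
      rw [← Complex.cpow_add _ _ hRc, ← Complex.cpow_add _ _ hRc]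
      congr 1
      ring
    linear_combination (κ * A * (starRingEnd ℂ) (M (1 - (starRingEnd ℂ) s))) * h7
  have hL2 : L 2 ≠ 0 := by
    rw [hL]
    simp only
    have h5 : (1 : ℝ) < (2 : ℂ).re := by norm_num
    rw [hM, (hmel (rp K) reps_rp e ψ h.norm_le_one hN 2 h5).2]
    obtain ⟨A', -, hd⟩ := Pool.Agent.Y772.DK.t_dirK K
    have h6 := (hd ψ h.norm_le_one).2.2.1 2 h5
    refine mul_ne_zero ?_ (mul_ne_zero (by exact_mod_cast hC.ne') (mul_ne_zero (gam_ne_zero (ex e) (by norm_num)) h6))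
    rw [Ne, Complex.cpow_eq_zero_iff]
    exact fun h => hRc h.1
  have hw1 : ‖w‖ = 1 := by
    have h5 := hLfe 2
    have h6 := hLfe (1 - (starRingEnd ℂ) 2)
    rw [h6, map_mul] at h5
    have h7 : 1 - (starRingEnd ℂ) (1 - (starRingEnd ℂ) (2 : ℂ)) = 2 := by
      rw [map_sub, map_one, Complex.conj_conj]
      ring
    rw [h7, Complex.conj_conj] at h5
    have h8 : w * (starRingEnd ℂ) w = 1 := by
      have : (w * (starRingEnd ℂ) w) * L 2 = 1 * L 2 := by linear_combination -h5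
      exact mul_right_cancel₀ hL2 this
    rw [Complex.mul_conj, Complex.normSq_eq_norm_sq] at h8
    have h9 : ‖w‖ ^ 2 = 1 := by exact_mod_cast h8
    have := norm_nonneg w
    nlinarith
  have hC' : (C : ℂ) ≠ 0 := by exact_mod_cast hC.ne'
  have hGG : ∀ s : ℂ, s.im ≠ 0 → GG R (ex e) s *
      ((C : ℂ)⁻¹ * (M s * ∏ φ : K →+* ℂ, (Complex.Gammaℝ (s + ex e φ))⁻¹)) = (C : ℂ)⁻¹ * L s := by
    intro s hs
    unfold GG
    rw [hL, Finset.prod_inv_distrib]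
    simp only
    have h5 := gam_ne_zero' (ex e) hs
    field_simp
  refine ⟨fun s => (C : ℂ)⁻¹ * (M s * ∏ φ : K →+* ℂ, (Complex.Gammaℝ (s + ex e φ))⁻¹), ⟨ex_le h.sig_le,
    (h2.mul (differentiable_gam (ex e))).const_mul _, ⟨w, hw1, ?_⟩, ?_⟩, ?_⟩
  · intro s hs
    have hs' : (1 - (starRingEnd ℂ) s).im ≠ 0 := by simpa using hs
    rw [hGG s hs, hGG _ hs', map_mul, hLfe s]
    have h5 : (starRingEnd ℂ) ((C : ℂ)⁻¹) = (C : ℂ)⁻¹ := by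
      rw [map_inv₀, Complex.conj_ofReal]
    rw [h5]
    ring
  · intro a b
    obtain ⟨C', hC'⟩ := mellin_strip_bound h1 a b
    refine ⟨‖(C : ℂ)⁻¹‖ * (R ^ (b / 2) * C'), fun s hsa hsb him => ?_⟩
    have him' : s.im ≠ 0 := by
      rintro h0
      rw [h0, abs_zero] at him
      linarith
    rw [hGG s him', norm_mul, hL]
    simp only
    rw [norm_mul]
    have h5 : ‖(R : ℂ) ^ (s / 2)‖ ≤ R ^ (b / 2) := by
      rw [Complex.norm_cpow_eq_rpow_re_of_pos hR0]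
      refine Real.rpow_le_rpow_of_exponent_le hR1 ?_
      have : (s / 2).re = s.re / 2 := by simp
      rw [this]
      linarith
    have h6 := hC' s hsa hsb
    gcongr
  · intro s hs
    simp only
    rw [hM, (hmel (rp K) reps_rp e ψ h.norm_le_one hN s hs).2, Finset.prod_inv_distrib]
    have h3 := gam_ne_zero (ex e) (s := s) (by linarith)
    field_simp

end

theorem t_fe : StFe := fun _ _ _ _ _ _ hp h => fe_prim hp h

end Pool.Agent.Y773.G
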