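import Pool.Agent.Y773.HG.Hf2
import Pool.Agent.Y773.HK.Cls

/-! # Sum over the ideal classes -/

set_option autoImplicit false
set_option linter.unusedSectionVars false

open NumberField Complex Filter Topology MeasureTheory Set
open NumberField.Units NumberField.Units.dirichletUnitTheorem

namespace Pool.Agent.Y773.G

section general

variable {K : Type} [Field K] [NumberField K]

lemma summable_LI {η : Ideal (𝓞 K) →*₀ ℂ} (hη : ∀ 𝔞, ‖η 𝔞‖ ≤ 1) {s : ℂ}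
    (hs : 1 < s.re) : Summable fun 𝔞 : Ideal (𝓞 K) => η 𝔞 * ((Ideal.absNorm 𝔞 : ℕ) : ℂ) ^ (-s) := by
  have h1 := summable_ideals (K := K) hs
  have h2 : Summable fun I : {I : Ideal (𝓞 K) // I ≠ ⊥} =>
      η I.1 * ((Ideal.absNorm I.1 : ℕ) : ℂ) ^ (-s) := by
    refine Summable.of_norm_bounded h1 fun I => ?_
    rw [norm_mul, norm_absNorm_cpow I.2]
    calc _ ≤ 1 * (Ideal.absNorm I.1 : ℝ) ^ (-s.re) := mul_le_mul_of_nonneg_right (hη _) (by positivity)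
      _ = _ := one_mul _
  have h3 := (Subtype.val_injective (p := fun I : Ideal (𝓞 K) => I ≠ ⊥)).summable_iff
    (f := fun 𝔞 : Ideal (𝓞 K) => η 𝔞 * ((Ideal.absNorm 𝔞 : ℕ) : ℂ) ^ (-s)) (by
      intro I hI
      have : I = ⊥ := by
        by_contra h0
        exact hI ⟨⟨I, h0⟩, rfl⟩
      rw [this]
      have : η (⊥ : Ideal (𝓞 K)) = 0 := map_zero η
      rw [this, zero_mul])
  exact h3.mp h2

/-- **Sum over the classes** -/
theorem sum_classes {𝔟 : ClassGroup (𝓞 K) → Ideal (𝓞 K)} (h : Reps 𝔟)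
    {η : Ideal (𝓞 K) →*₀ ℂ} (hη : ∀ 𝔞, ‖η 𝔞‖ ≤ 1) {s : ℂ} (hs : 1 < s.re) :
    ∑ c, ((Ideal.absNorm (𝔟 c) : ℕ) : ℂ) ^ s * ∑' J : PIdl K, η (qt (𝔟 c) (gen J)) *
      ((Ideal.absNorm J.1 : ℕ) : ℂ) ^ (-s) = LI η s := by
  classical
  have hsum := summable_LI hη hs
  simp_rw [fun c => sum_PIdl (h.ne_bot c) η s]
  set g : Ideal (𝓞 K) → ℂ := fun 𝔞 => η 𝔞 * ((Ideal.absNorm 𝔞 : ℕ) : ℂ) ^ (-s) with hg
  have h1 : ∀ c, ∑' 𝔞 : Sc (𝔟 c), η 𝔞 * ((Ideal.absNorm (𝔞 : Ideal (𝓞 K)) : ℕ) : ℂ) ^ (-s) =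
      ∑' 𝔞, (Sc (𝔟 c)).indicator g 𝔞 := fun c => tsum_subtype (Sc (𝔟 c)) g
  simp_rw [h1]
  rw [← Summable.tsum_finsetSum (fun c _ => hsum.indicator _)]
  unfold LI
  refine tsum_congr fun 𝔞 => ?_
  by_cases h𝔞 : 𝔞 = ⊥
  · have h2 : η (⊥ : Ideal (𝓞 K)) = 0 := map_zero η
    rw [h𝔞, h2, zero_mul]
    refine Finset.sum_eq_zero fun c _ => ?_
    rw [indicator_of_notMem]
    exact fun h => h.1 rfl
  · obtain ⟨c, hc, huniq⟩ := exists_unique_class h h𝔞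
    rw [Finset.sum_eq_single c]
    · rw [indicator_of_mem hc]
    · intro c' _ hc'
      rw [indicator_of_notMem]
      exact fun hmem => hc' (huniq c' hmem)
    · exact fun h => absurd (Finset.mem_univ c) h

end general

section real

variable {K : Type} [Field K] [NumberField K]

lemma AA_Ps (e : InfinitePlace K → ℕ) (η : Ideal (𝓞 K) →*₀ ℂ) (𝔟 : Ideal (𝓞 K)) (J : PIdl K) :
    AA e (Ps η e 𝔟) J = η (qt 𝔟 (gen J)) := by
  unfold AA Ps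
  rw [mul_assoc, sg_sq e (RingOfIntegers.coe_ne_zero_iff.mpr (gen_ne_zero J)), mul_one]

/-- the total function -/
noncomputable def Ftot (η : Ideal (𝓞 K) →*₀ ℂ) (e : InfinitePlace K → ℕ)
    (𝔟 : ClassGroup (𝓞 K) → Ideal (𝓞 K)) (t : ℝ) : ℂ :=
  ∑ c, hf e (Ps η e (𝔟 c)) ((Ideal.absNorm (𝔟 c) : ℝ)⁻¹ * t)

/-- Mellin transform of the total function -/
theorem mellin_Ftot (K : Type) [Field K] [NumberField K] : ∃ C : ℝ, 0 < C ∧
    ∀ (𝔟 : ClassGroup (𝓞 K) → Ideal (𝓞 K)), Reps 𝔟 → ∀ (e : InfinitePlace K → ℕ)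
      (η : Ideal (𝓞 K) →*₀ ℂ), (∀ 𝔞, ‖η 𝔞‖ ≤ 1) → (∀ c, Nice e (Ps η e (𝔟 c))) →
      ∀ s : ℂ, 1 < s.re → MellinConvergent (Ftot η e 𝔟) s ∧
        mellin (Ftot η e 𝔟) s = C * ((∏ φ : K →+* ℂ, Complex.Gammaℝ (s + ex e φ)) * LI η s) := by
  classical
  obtain ⟨C, hC, h⟩ := mellin_hf K
  refine ⟨C, hC, fun 𝔟 h𝔟 e η hη hN s hs => ?_⟩
  have hpos : ∀ c, (0 : ℝ) < (Ideal.absNorm (𝔟 c) : ℝ)⁻¹ := by
    intro c
    have : Ideal.absNorm (𝔟 c) ≠ 0 := by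
      rw [Ne, Ideal.absNorm_eq_zero_iff]
      exact h𝔟.ne_bot c
    have : 0 < Ideal.absNorm (𝔟 c) := Nat.pos_of_ne_zero this
    positivity
  have h1 : ∀ c, MellinConvergent (fun t => hf e (Ps η e (𝔟 c)) ((Ideal.absNorm (𝔟 c) : ℝ)⁻¹ * t)) s := by
    intro c
    rw [MellinConvergent.comp_mul_left (hpos c)]
    exact (h e _ (hN c) s hs).1
  have h2 : ∀ c, mellin (fun t => hf e (Ps η e (𝔟 c)) ((Ideal.absNorm (𝔟 c) : ℝ)⁻¹ * t)) s =
      C * ((∏ φ : K →+* ℂ, Complex.Gammaℝ (s + ex e φ)) * (((Ideal.absNorm (𝔟 c) : ℕ) : ℂ) ^ s *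
        ∑' J : PIdl K, η (qt (𝔟 c) (gen J)) * ((Ideal.absNorm J.1 : ℕ) : ℂ) ^ (-s))) := by
    intro c
    rw [mellin_comp_mul_left _ _ (hpos c), (h e _ (hN c) s hs).2.2, smul_eq_mul]
    simp_rw [AA_Ps]
    have h3 : (((Ideal.absNorm (𝔟 c) : ℝ)⁻¹ : ℝ) : ℂ) ^ (-s) = ((Ideal.absNorm (𝔟 c) : ℕ) : ℂ) ^ s := by
      have h4 : (0 : ℝ) < Ideal.absNorm (𝔟 c) := inv_pos.mp (hpos c)
      rw [Complex.cpow_def_of_ne_zero (by exact_mod_cast (hpos c).ne'),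
        ← Complex.ofReal_log (hpos c).le, Real.log_inv,
        Complex.cpow_def_of_ne_zero (by exact_mod_cast h4.ne'), ← Complex.ofReal_natCast,
        ← Complex.ofReal_log h4.le]
      congr 1
      push_cast
      ring
    rw [h3]
    ring
  have h5 : ∀ S : Finset (ClassGroup (𝓞 K)), MellinConvergent
      (fun t => ∑ c ∈ S, hf e (Ps η e (𝔟 c)) ((Ideal.absNorm (𝔟 c) : ℝ)⁻¹ * t)) s ∧
      mellin (fun t => ∑ c ∈ S, hf e (Ps η e (𝔟 c)) ((Ideal.absNorm (𝔟 c) : ℝ)⁻¹ * t)) s =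
      ∑ c ∈ S, mellin (fun t => hf e (Ps η e (𝔟 c)) ((Ideal.absNorm (𝔟 c) : ℝ)⁻¹ * t)) s := by
    intro S
    induction S using Finset.induction_on with
    | empty =>
      simp only [Finset.sum_empty]
      constructor
      · unfold MellinConvergent
        simp
      · simp [mellin]
    | insert c S hc ih =>
      simp only [Finset.sum_insert hc]
      constructor
      · exact (hasMellin_add (h1 c) ih.1).1
      · rw [← ih.2]
        exact (hasMellin_add (h1 c) ih.1).2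
  refine ⟨(h5 Finset.univ).1, ?_⟩
  have h6 := (h5 Finset.univ).2
  unfold Ftot
  rw [h6]
  simp_rw [h2]
  rw [← Finset.mul_sum, ← Finset.mul_sum, sum_classes h𝔟 hη hs]

end real

end Pool.Agent.Y773.G
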