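import Pool.Agent.Y773.HG.Fin
import Pool.Agent.Y773.HK.Art
import Pool.Agent.Y772.HG.Sel
import Pool.Agent.Y772.HG.Tot

/-! # The final theorem for number fields of degree two and three, unconditional -/

set_option autoImplicit false
set_option linter.unusedSectionVars false

open NumberField Complex Filter Topology Set MeasureTheory
open H370 (NN Ns Nd)
open H385 (primFamM Rw)

namespace Pool.Agent.Y773.G

theorem t_nv : StNv := by
  intro K _ _ 𝔣 ψ h hf F s₀ hs₀ hF hFL
  exact Pool.Agent.Y772.G.nv_prim t_ent h hf hs₀ hF hFL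

theorem t_sel : StSelG := by
  intro K _ _ hd 𝔣 ψ h p hp hpf P P' hP hP' hne
  exact (Pool.Agent.Y772.G.sel_all t_ent hd h hp hpf hP hP' hne).2

end Pool.Agent.Y773.G
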