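import Pool.Agent.Y773.HG.Cls
import Pool.Agent.Y773.HK.Fam

/-! # The functional equation, general form (arbitrary signature, constant terms allowed) -/

set_option autoImplicit false
set_option linter.unusedSectionVars false

open NumberField Complex Filter Topology MeasureTheory Set
open NumberField.Units NumberField.Units.dirichletUnitTheorem

namespace Pool.Agent.Y773.G

variable {K : Type} [Field K] [NumberField K]

lemma rz_zero (Φ : 𝓞 K → ℂ) : rz Φ 0 = 0 := by simp [rz]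

lemma rz_of_zero {Φ : 𝓞 K → ℂ} (h : Φ 0 = 0) : rz Φ = Φ := by
  funext x
  unfold rz
  split_ifs with hx
  · rw [hx, h]
  · rfl

lemma norm_rz_le {Φ : 𝓞 K → ℂ} {B : ℝ} (hB : ∀ x, ‖Φ x‖ ≤ B) (x : 𝓞 K) : ‖rz Φ x‖ ≤ B := by
  unfold rz
  split_ifs
  · rw [norm_zero]
    exact (norm_nonneg _).trans (hB 0)
  · exact hB x

lemma rz_nice {e : InfinitePlace K → ℕ} (he : ∀ w, e w ≤ 1)
    (hc : ∀ w : InfinitePlace K, w.IsComplex → e w = 0) {Φ : 𝓞 K → ℂ} {B : ℝ}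
    (hB : ∀ x, ‖Φ x‖ ≤ B) (hE : Eqv e Φ) : Nice e (rz Φ) where
  he := he
  cpx := hc
  bdd := ⟨B, norm_rz_le hB⟩
  zero := rz_zero Φ
  unit u x := by
    unfold rz
    by_cases hx : x = 0
    · simp [hx]
    · have : (u : 𝓞 K) * x ≠ 0 := mul_ne_zero u.ne_zero hx
      rw [if_neg hx, if_neg this, hE]

/-- the value of the gaussian at zero -/
noncomputable def G00 (e : InfinitePlace K → ℕ) : ℂ := ((GM e (fun _ => 1) (0 : K) : ℝ) : ℂ)

lemma GM_zero (e : InfinitePlace K → ℕ) (a : InfinitePlace K → ℝ) :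
    ((GM e a (0 : K) : ℝ) : ℂ) = G00 e := by
  unfold G00 GM
  simp only [rr_zero, mul_zero]

lemma G00_zero : G00 (fun _ : InfinitePlace K => 0) = 1 := by
  unfold G00 GM G0 g0 eM
  simp [rr_zero]

lemma G00_of_ne {e : InfinitePlace K → ℕ} {w : InfinitePlace K} (hw : e w ≠ 0) : G00 e = 0 := by
  unfold G00 GM G0
  rw [Complex.ofReal_eq_zero]
  refine Finset.prod_eq_zero (Finset.mem_univ w.embedding) ?_
  unfold g0 eM
  simp only
  rw [rr_zero, mul_zero, w.mk_embedding, zero_pow hw, zero_mul]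

lemma th_rz {e : InfinitePlace K → ℕ} (he : ∀ w, e w ≤ 1) {Φ : 𝓞 K → ℂ} {B : ℝ}
    (hB : ∀ x, ‖Φ x‖ ≤ B) (y : InfinitePlace K → ℝ) :
    th e Φ y = Φ 0 * G00 e + th e (rz Φ) y := by
  classical
  have ha : ∀ w, 0 < Real.exp (y w / 2) := fun w => Real.exp_pos _
  have hs := summable_th he hB ha
  unfold th
  rw [hs.tsum_eq_add_tsum_ite 0]
  congr 1
  · rw [← GM_zero e (fun w => Real.exp (y w / 2))]
    rfl
  · refine tsum_congr fun x => ?_
    unfold rz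
    by_cases hx : x = 0
    · simp [hx]
    · simp [hx]

lemma hf_rz {e : InfinitePlace K → ℕ} (he : ∀ w, e w ≤ 1) {Φ : 𝓞 K → ℂ} {B : ℝ}
    (hB : ∀ x, ‖Φ x‖ ≤ B) (t : ℝ) :
    hf e Φ t = Φ 0 * G00 e + hf e (rz Φ) t := by
  rw [hf_eq, hf_eq]
  simp_rw [th_rz he hB]
  have hc : Continuous fun θ : Fin (rank K) → ℝ =>
      th e (rz Φ) (el K ((2 / Module.finrank ℚ K) * Real.log t, θ)) := by
    have h1 : Continuous (el K) := (el K).continuous_of_finiteDimensional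
    exact (continuous_th he (norm_rz_le hB)).comp (h1.comp (by fun_prop))
  rw [integral_add continuous_const.integrableOn_Icc hc.integrableOn_Icc]
  congr 1
  rw [setIntegral_const, Measure.real, volume_cube]
  simp

lemma locInt_hf {e : InfinitePlace K → ℕ} (he : ∀ w, e w ≤ 1) {Ψ : 𝓞 K → ℂ} {B : ℝ}
    (hB : ∀ x, ‖Ψ x‖ ≤ B) {a : ℝ} (ha : 0 < a) :
    ContinuousOn (fun t => hf e Ψ (a * t)) (Ioi 0) := by
  refine (continuousOn_hf he hB).comp (by fun_prop) ?_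
  intro t ht
  exact mul_pos ha ht

lemma hf_decay' {e : InfinitePlace K → ℕ} {Ψ : 𝓞 K → ℂ} (h : Nice e Ψ) {a : ℝ} (ha : 0 < a)
    (r : ℝ) : (fun t => hf e Ψ (a * t)) =O[atTop] (fun t => t ^ r) := by
  have h1 := (hf_decay h r).comp_tendsto (tendsto_id.const_mul_atTop ha)
  refine h1.trans ?_
  refine Asymptotics.IsBigO.of_bound (a ^ r) ?_
  filter_upwards [eventually_gt_atTop 0] with t ht
  simp only [Function.comp_apply, id]
  rw [Real.mul_rpow ha.le ht.le, norm_mul, Real.norm_of_nonneg (Real.rpow_nonneg ha.le r)]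

/-- the function attached to a family of functions indexed by the classes -/
noncomputable def FF (e : InfinitePlace K → ℕ) (𝔟 : ClassGroup (𝓞 K) → Ideal (𝓞 K))
    (Φ : ClassGroup (𝓞 K) → 𝓞 K → ℂ) (t : ℝ) : ℂ :=
  ∑ c, hf e (Φ c) ((Ideal.absNorm (𝔟 c) : ℝ)⁻¹ * t)

/-- the dual function -/
noncomputable def FG (e : InfinitePlace K → ℕ) (𝔟 : ClassGroup (𝓞 K) → Ideal (𝓞 K))
    (Φ : ClassGroup (𝓞 K) → 𝓞 K → ℂ) (m D : ℕ) (t : ℝ) : ℂ :=
  ∑ c, (Ideal.absNorm (𝔟 c) : ℂ) * hf e (FT D m (Φ c))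
    (t * Ideal.absNorm (𝔟 c) / ((m * D : ℕ) : ℝ) ^ (Module.finrank ℚ K))

lemma absNorm_pos' {𝔟 : ClassGroup (𝓞 K) → Ideal (𝓞 K)} (h𝔟 : Reps 𝔟) (c : ClassGroup (𝓞 K)) :
    (0 : ℝ) < (Ideal.absNorm (𝔟 c) : ℝ) := by
  have : Ideal.absNorm (𝔟 c) ≠ 0 := by
    rw [Ne, Ideal.absNorm_eq_zero_iff]
    exact h𝔟.ne_bot c
  exact_mod_cast Nat.pos_of_ne_zero this

/-- **The functional equation as a weak FE-pair** -/
theorem fam_weak (K : Type) [Field K] [NumberField K] : ∃ V : ℝ, 0 < V ∧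
    ∀ (𝔟 : ClassGroup (𝓞 K) → Ideal (𝓞 K)), Reps 𝔟 → ∀ (e : InfinitePlace K → ℕ),
      (∀ w, e w ≤ 1) → (∀ w : InfinitePlace K, w.IsComplex → e w = 0) →
      ∀ (Φ : ClassGroup (𝓞 K) → 𝓞 K → ℂ) (B : ℝ), (∀ c x, ‖Φ c x‖ ≤ B) → (∀ c, Eqv e (Φ c)) →
      ∀ m D : ℕ, 0 < m → 0 < D → (D : 𝓞 K) ∈ differentIdeal ℤ (𝓞 K) →
      (∀ c (x z : 𝓞 K), Φ c (x + m * z) = Φ c x) →
      ∃ P : WeakFEPair ℂ, P.f = FF e 𝔟 Φ ∧ P.g = FG e 𝔟 Φ m D ∧ P.k = 1 ∧
        P.ε = ((V⁻¹ : ℝ) : ℂ) * ((m : ℂ) ^ (Module.finrank ℚ K))⁻¹ *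
          (-I) ^ (∑ φ : K →+* ℂ, eM e φ) ∧
        P.f₀ = G00 e * ∑ c, Φ c 0 ∧
        P.g₀ = G00 e * ∑ c, (Ideal.absNorm (𝔟 c) : ℂ) * FT D m (Φ c) 0 := by
  classical
  obtain ⟨V, hV0, hV⟩ := hf_fe K
  refine ⟨V, hV0, fun 𝔟 h𝔟 e he hcx Φ B hB hE m D hm hD hDD hper => ?_⟩
  have hNpos := absNorm_pos' h𝔟
  have hmD : (0 : ℝ) < ((m * D : ℕ) : ℝ) := by
    have : 0 < m * D := Nat.mul_pos hm hD
    exact_mod_cast this
  have hBn : 0 ≤ B := (norm_nonneg _).trans (hB (Classical.arbitrary _) 0)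
  have hE' : ∀ c, Eqv e (FT D m (Φ c)) := fun c => FT_eqv (hE c) hm hD (hper c)
  have hBF := fun c => norm_FT_le (D := D) hm hBn (hB c)
  have hN : ∀ c, Nice e (rz (Φ c)) := fun c => rz_nice he hcx (hB c) (hE c)
  have hN' : ∀ c, Nice e (rz (FT D m (Φ c))) := fun c => rz_nice he hcx (hBF c) (hE' c)
  set κ : ℂ := ((V⁻¹ : ℝ) : ℂ) * ((m : ℂ) ^ (Module.finrank ℚ K))⁻¹ *
    (-I) ^ (∑ φ : K →+* ℂ, eM e φ) with hκ
  have hκ0 : κ ≠ 0 := by
    rw [hκ]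
    refine mul_ne_zero (mul_ne_zero ?_ ?_) ?_
    · exact_mod_cast (inv_pos.mpr hV0).ne'
    · refine inv_ne_zero (pow_ne_zero _ ?_)
      exact_mod_cast hm.ne'
    · exact pow_ne_zero _ (neg_ne_zero.mpr Complex.I_ne_zero)
  set M : ℝ := ((m * D : ℕ) : ℝ) ^ (Module.finrank ℚ K) with hM
  have hM0 : 0 < M := by positivity
  refine ⟨
    { f := FF e 𝔟 Φ
      g := FG e 𝔟 Φ m D
      k := 1
      ε := κ
      f₀ := G00 e * ∑ c, Φ c 0
      g₀ := G00 e * ∑ c, (Ideal.absNorm (𝔟 c) : ℂ) * FT D m (Φ c) 0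
      hf_int := by
        refine ContinuousOn.locallyIntegrableOn ?_ measurableSet_Ioi
        unfold FF
        exact continuousOn_finsetSum _ fun c _ => locInt_hf he (hB c) (inv_pos.mpr (hNpos c))
      hg_int := by
        refine ContinuousOn.locallyIntegrableOn ?_ measurableSet_Ioi
        unfold FG
        refine continuousOn_finsetSum _ fun c _ => continuousOn_const.mul ?_
        have := locInt_hf he (hBF c) (a := Ideal.absNorm (𝔟 c) / M) (div_pos (hNpos c) hM0)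
        refine this.congr fun t _ => ?_
        simp only
        congr 1
        ring
      hk := one_pos
      hε := hκ0
      h_feq := fun t ht => ?_
      hf_top := fun r => ?_
      hg_top := fun r => ?_ }, rfl, rfl, rfl, rfl, rfl, rfl⟩
  · have ht' : 0 < t := ht
    rw [Real.rpow_one, smul_eq_mul]
    unfold FF FG
    rw [Finset.mul_sum]
    refine Finset.sum_congr rfl fun c _ => ?_
    have h2 : (Ideal.absNorm (𝔟 c) : ℝ)⁻¹ * (1 / t) = 1 / (t * Ideal.absNorm (𝔟 c)) := by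
      have := (hNpos c).ne'
      field_simp
    rw [h2, hV e he hcx _ B (hB c) (hE c) m D hm hD hDD (hper c) _ (mul_pos ht' (hNpos c)),
      ← hκ, ← hM]
    push_cast
    ring
  · have h1 : (fun t => FF e 𝔟 Φ t - G00 e * ∑ c, Φ c 0) =
        fun t => ∑ c, hf e (rz (Φ c)) ((Ideal.absNorm (𝔟 c) : ℝ)⁻¹ * t) := by
      funext t
      unfold FF
      simp_rw [fun c => hf_rz he (hB c) ((Ideal.absNorm (𝔟 c) : ℝ)⁻¹ * t)]
      rw [Finset.sum_add_distrib, Finset.mul_sum]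
      have : ∑ c, Φ c 0 * G00 e = ∑ c, G00 e * Φ c 0 := Finset.sum_congr rfl fun c _ => mul_comm _ _
      rw [this]
      ring
    rw [h1]
    refine (Asymptotics.IsBigO.sum (s := Finset.univ)
      (A := fun c t => hf e (rz (Φ c)) ((Ideal.absNorm (𝔟 c) : ℝ)⁻¹ * t))
      fun c _ => hf_decay' (hN c) (inv_pos.mpr (hNpos c)) r).congr_left fun t => ?_
    rw [Finset.sum_apply]
  · have h1 : (fun t => FG e 𝔟 Φ m D t -
        G00 e * ∑ c, (Ideal.absNorm (𝔟 c) : ℂ) * FT D m (Φ c) 0) =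
        fun t => ∑ c, (Ideal.absNorm (𝔟 c) : ℂ) * hf e (rz (FT D m (Φ c)))
          (t * Ideal.absNorm (𝔟 c) / M) := by
      funext t
      unfold FG
      simp_rw [← hM, fun c => hf_rz he (hBF c) (t * Ideal.absNorm (𝔟 c) / M), mul_add]
      rw [Finset.sum_add_distrib, Finset.mul_sum]
      have : ∑ c, (Ideal.absNorm (𝔟 c) : ℂ) * (FT D m (Φ c) 0 * G00 e) =
          ∑ c, G00 e * ((Ideal.absNorm (𝔟 c) : ℂ) * FT D m (Φ c) 0) :=
        Finset.sum_congr rfl fun c _ => by ring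
      rw [this]
      ring
    rw [h1]
    refine (Asymptotics.IsBigO.sum (s := Finset.univ)
      (A := fun c t => (Ideal.absNorm (𝔟 c) : ℂ) * hf e (rz (FT D m (Φ c)))
        (t * Ideal.absNorm (𝔟 c) / M)) fun c _ => Asymptotics.IsBigO.const_mul_left ?_ _).congr_left
          fun t => by rw [Finset.sum_apply]
    have := hf_decay' (hN' c) (a := Ideal.absNorm (𝔟 c) / M) (div_pos (hNpos c) hM0) r
    refine this.congr_left fun t => ?_
    congr 1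
    ring

/-- the dual function -/
noncomputable def Gtot (η : Ideal (𝓞 K) →*₀ ℂ) (e : InfinitePlace K → ℕ)
    (𝔟 : ClassGroup (𝓞 K) → Ideal (𝓞 K)) (m D : ℕ) (t : ℝ) : ℂ :=
  ∑ c, (Ideal.absNorm (𝔟 c) : ℂ) * hf e (rz (FT D m (Ps η e (𝔟 c))))
    (t * Ideal.absNorm (𝔟 c) / ((m * D : ℕ) : ℝ) ^ (Module.finrank ℚ K))

/-- **The functional equation, general form** -/
theorem fam_fe (K : Type) [Field K] [NumberField K] : ∃ V : ℝ, 0 < V ∧
    ∀ (𝔟 : ClassGroup (𝓞 K) → Ideal (𝓞 K)), Reps 𝔟 → ∀ (e : InfinitePlace K → ℕ)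
      (η : Ideal (𝓞 K) →*₀ ℂ), (∀ c, Nice e (Ps η e (𝔟 c))) → ∀ m D : ℕ, 0 < m → 0 < D →
      (D : 𝓞 K) ∈ differentIdeal ℤ (𝓞 K) →
      (∀ c (x z : 𝓞 K), Ps η e (𝔟 c) (x + m * z) = Ps η e (𝔟 c) x) →
      G00 e * (∑ c, (Ideal.absNorm (𝔟 c) : ℂ) * FT D m (Ps η e (𝔟 c)) 0) = 0 →
      (∀ s, MellinConvergent (Ftot η e 𝔟) s) ∧ Differentiable ℂ (mellin (Ftot η e 𝔟)) ∧
      ∀ s, mellin (Ftot η e 𝔟) (1 - s) =
        (((V⁻¹ : ℝ) : ℂ) * ((m : ℂ) ^ (Module.finrank ℚ K))⁻¹ *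
          (-I) ^ (∑ φ : K →+* ℂ, eM e φ)) * mellin (Gtot η e 𝔟 m D) s := by
  classical
  obtain ⟨V, hV0, hV⟩ := fam_weak K
  refine ⟨V, hV0, fun 𝔟 h𝔟 e η hN m D hm hD hDD hper hzero => ?_⟩
  choose B hB using fun c => (hN c).bdd
  have hN0 := hN (Classical.arbitrary _)
  have hB' : ∀ c x, ‖Ps η e (𝔟 c) x‖ ≤ ∑ c, |B c| := fun c x =>
    (hB c x).trans ((le_abs_self _).trans (Finset.single_le_sum (f := fun c => |B c|)
      (fun _ _ => abs_nonneg _) (Finset.mem_univ c)))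
  obtain ⟨P, hPf, hPg, hPk, hPε, hPf0, hPg0⟩ := hV 𝔟 h𝔟 e hN0.he hN0.cpx (fun c => Ps η e (𝔟 c)) _ hB'
    (fun c => (hN c).unit) m D hm hD hDD hper
  have hP : IsStrongFEPair P := ⟨by
    rw [hPf0, Finset.sum_eq_zero fun c _ => (hN c).zero, mul_zero], by rw [hPg0]; exact hzero⟩
  have hFF : FF e 𝔟 (fun c => Ps η e (𝔟 c)) = Ftot η e 𝔟 := rfl
  have hBn : (0 : ℝ) ≤ ∑ c, |B c| := Finset.sum_nonneg fun _ _ => abs_nonneg _
  have hFG : FG e 𝔟 (fun c => Ps η e (𝔟 c)) m D = Gtot η e 𝔟 m D := by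
    funext t
    unfold FG Gtot
    simp_rw [fun c => hf_rz hN0.he (norm_FT_le (D := D) hm hBn (hB' c))
      (t * Ideal.absNorm (𝔟 c) / ((m * D : ℕ) : ℝ) ^ (Module.finrank ℚ K)), mul_add]
    rw [Finset.sum_add_distrib]
    have : ∑ c, (Ideal.absNorm (𝔟 c) : ℂ) * (FT D m (Ps η e (𝔟 c)) 0 * G00 e) = 0 := by
      rw [← hzero, Finset.mul_sum]
      exact Finset.sum_congr rfl fun c _ => by ring
    rw [this, zero_add]
  rw [← hFF, ← hPf]
  refine ⟨fun s => (hP.hasMellin s).1, ?_, ?_⟩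
  · have := hP.differentiable_Λ
    rw [hP.Λ_eq] at this
    exact this
  · intro s
    have h1 := P.functional_equation s
    rw [hP.Λ_eq, hP.symm_Λ_eq, hPk, hPε, hPg, hFG] at h1
    simpa using h1

end Pool.Agent.Y773.G
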