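import Pool.Agent.Y773.HG.Rs
import Pool.Agent.Y772.HG.Sgn
import Pool.Agent.Y772.HG.Tw
import Pool.Agent.Y772.NC.D3
import Pool.Agent.W388.TW.Final

/-! # The final theorem for number fields of arbitrary signature -/

set_option autoImplicit false
set_option linter.unusedSectionVars false

open NumberField Complex Filter Topology Set MeasureTheory
open H370 (NN Ns Nd)
open H385 (primFamM Rw)

namespace Pool.Agent.Y773.G

/-- NV : no zeros on the line `Re s = 1`. -/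
def StNv : Prop := ∀ (K : Type) [Field K] [NumberField K] (𝔣 : Ideal (𝓞 K))
  (ψ : Ideal (𝓞 K) →*₀ ℂ), IsPrimChar K 𝔣 ψ → 𝔣 ≠ ⊤ → ∀ (F : ℂ → ℂ) (s₀ : ℂ), s₀.re = 1 →
    AnalyticAt ℂ F s₀ → (∀ s : ℂ, 1 < s.re → F s = LI ψ s) → F s₀ ≠ 0

/-- SEL : Selberg orthonormality for irreducible representations induced from fields of degree two
and three. -/
def StSelG : Prop := ∀ (K : Type) [Field K] [NumberField K],
  (Module.finrank ℚ K = 2 ∨ Module.finrank ℚ K = 3) → ∀ (𝔣 : Ideal (𝓞 K))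
  (ψ : Ideal (𝓞 K) →*₀ ℂ), IsPrimChar K 𝔣 ψ → ∀ p : ℕ, p.Prime → ¬ p ∣ Ideal.absNorm 𝔣 →
    ∀ P P' : Ideal (𝓞 K), Ideal.absNorm P = p → Ideal.absNorm P' = p → ψ P ≠ ψ P' →
      W388.SelE (cc ψ)

section

variable {K : Type} [Field K] [NumberField K]

/-- **Zeros on the critical line**, general form -/
theorem fin_of (hNv : StNv) {𝔣 : Ideal (𝓞 K)} {ψ : Ideal (𝓞 K) →*₀ ℂ} (h : IsPrimChar K 𝔣 ψ)
    (hSel : W388.SelE (cc ψ)) (γ κ₀ : ℝ) (h0 : 0 < γ) (hπ : γ < Real.pi)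
    (hκ : (Module.finrank ℚ K : ℝ) / 2 * Rw γ 0 +
      4 / (Module.finrank ℚ K : ℝ) * (∫ α in (0 : ℝ)..1, α * Rw γ α) < κ₀) :
    ∃ F : (q : ℕ) → DirichletCharacter ℂ q → ℂ → ℂ,
      (∀ (q : ℕ) (χ : DirichletCharacter ℂ q), 2 ≤ q →
        Nat.Coprime q (Ideal.absNorm 𝔣 * (discr K).natAbs) → χ.IsPrimitive →
        Differentiable ℂ (F q χ) ∧ ∀ s : ℂ, 1 < s.re → F q χ s = LI (tw ψ χ) s) ∧
      ∃ κ η X0 : ℝ, 1 ≤ κ ∧ 0 < η ∧ 1 ≤ X0 ∧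
      ∀ (X Y : ℕ) (T : ℝ), X0 ≤ X → κ * X ≤ Y → (Y : ℝ) ≤ (X : ℝ) ^ (1 + η) →
        (Real.log X) ^ 2 ≤ T → T ≤ (X : ℝ) ^ η →
        (2 - κ₀) * primFamM (Ideal.absNorm 𝔣 * (discr K).natAbs) X Y
            (fun q χ => (NN (F q χ) T (2 * T) : ℝ)) ≤
          primFamM (Ideal.absNorm 𝔣 * (discr K).natAbs) X Y
            (fun q χ => (Ns (F q χ) T (2 * T) : ℝ)) ∧
        (3 - κ₀) / 2 * primFamM (Ideal.absNorm 𝔣 * (discr K).natAbs) X Y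
            (fun q χ => (NN (F q χ) T (2 * T) : ℝ)) ≤
          primFamM (Ideal.absNorm 𝔣 * (discr K).natAbs) X Y
            (fun q χ => (Nd (F q χ) T (2 * T) : ℝ)) := by
  classical
  set N : ℕ := Ideal.absNorm 𝔣 * (discr K).natAbs with hN
  have hN0 : N ≠ 0 := mul_ne_zero (fun h1 => h.ne_bot (Ideal.absNorm_eq_zero_iff.mp h1))
    (Int.natAbs_ne_zero.mpr (discr_ne_zero K))
  set M := W388.rad N with hM
  have hMsq : Squarefree M := W388.rad_squarefree N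
  have htw : ∀ (q : ℕ) (χ : DirichletCharacter ℂ q), 2 ≤ q → χ.IsPrimitive → Nat.Coprime q M →
      IsPrimChar K (𝔣 * Ideal.span {(q : 𝓞 K)}) (tw ψ χ) := by
    intro q χ hq hχ hqM
    have hqN : Nat.Coprime q N := (W388.coprime_rad hN0 q).mp hqM
    refine Pool.Agent.Y772.G.t_tw K 𝔣 ψ h q χ (by omega) hχ ?_ ?_
    · exact Nat.Coprime.coprime_dvd_right (dvd_mul_right _ _) hqN
    · have h1 : Nat.Coprime q (discr K).natAbs :=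
        Nat.Coprime.coprime_dvd_right (dvd_mul_left _ _) hqN
      rw [Int.isCoprime_iff_gcd_eq_one]
      simpa [Int.gcd] using h1
  obtain ⟨A, F, hA, hF, hF2⟩ := twE_of Pool.Agent.Y772.G.t_sig h M htw
    (fun q χ G s₀ hq hχ hqM hs0 hG hGL =>
      hNv K _ _ (htw q χ hq hχ hqM) (mul_span_ne_top hq) G s₀ hs0 hG hGL)
  have hd : (1 : ℝ) ≤ (Module.finrank ℚ K : ℝ) := by
    have := Module.finrank_pos (R := ℚ) (M := K)
    exact_mod_cast this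
  obtain ⟨κ, η, X0, hκ', hη, hX0, hfin⟩ := W388.final_of_const_E (Module.finrank ℚ K : ℝ) A hd hA M
    hMsq (cc ψ) F hF hSel γ κ₀ h0 hπ hκ
  refine ⟨F, ?_, κ, η, X0, hκ', hη, hX0, ?_⟩
  · intro q χ hq hqN hχ
    exact hF2 q χ hq ((W388.coprime_rad hN0 q).mpr hqN) hχ
  · intro X Y T a1 a2 a3 a4 a5
    obtain ⟨b1, b2⟩ := hfin X Y T a1 a2 a3 a4 a5
    simp only [hM, W388.primFamM_rad hN0] at b1 b2
    exact ⟨b1, b2⟩

/-- **Zeros on the critical line**, quadratic fields -/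
theorem fin_two (hNv : StNv) (hSel : StSelG) (hd : Module.finrank ℚ K = 2)
    {𝔣 : Ideal (𝓞 K)} {ψ : Ideal (𝓞 K) →*₀ ℂ} (h : IsPrimChar K 𝔣 ψ) {p : ℕ} (hp : p.Prime)
    (hpf : ¬ p ∣ Ideal.absNorm 𝔣) {P P' : Ideal (𝓞 K)} (hP : Ideal.absNorm P = p)
    (hP' : Ideal.absNorm P' = p) (hne : ψ P ≠ ψ P') :
    ∃ F : (q : ℕ) → DirichletCharacter ℂ q → ℂ → ℂ,
      (∀ (q : ℕ) (χ : DirichletCharacter ℂ q), 2 ≤ q →
        Nat.Coprime q (Ideal.absNorm 𝔣 * (discr K).natAbs) → χ.IsPrimitive →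
        Differentiable ℂ (F q χ) ∧ ∀ s : ℂ, 1 < s.re → F q χ s = LI (tw ψ χ) s) ∧
      ∃ κ η X0 : ℝ, 1 ≤ κ ∧ 0 < η ∧ 1 ≤ X0 ∧
      ∀ (X Y : ℕ) (T : ℝ), X0 ≤ X → κ * X ≤ Y → (Y : ℝ) ≤ (X : ℝ) ^ (1 + η) →
        (Real.log X) ^ 2 ≤ T → T ≤ (X : ℝ) ^ η →
        0.6725 * primFamM (Ideal.absNorm 𝔣 * (discr K).natAbs) X Y
            (fun q χ => (NN (F q χ) T (2 * T) : ℝ)) ≤
          primFamM (Ideal.absNorm 𝔣 * (discr K).natAbs) X Y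
            (fun q χ => (Ns (F q χ) T (2 * T) : ℝ)) ∧
        0.83625 * primFamM (Ideal.absNorm 𝔣 * (discr K).natAbs) X Y
            (fun q χ => (NN (F q χ) T (2 * T) : ℝ)) ≤
          primFamM (Ideal.absNorm 𝔣 * (discr K).natAbs) X Y
            (fun q χ => (Nd (F q χ) T (2 * T) : ℝ)) := by
  have hS := hSel K (Or.inl hd) 𝔣 ψ h p hp hpf P P' hP hP' hne
  obtain ⟨F, hF, κ, η, X0, hκ, hη, hX0, hfin⟩ := fin_of hNv h hS 1.414 1.3275 (by norm_num)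
    (by linarith [Real.pi_gt_three]) (by
      rw [hd]
      have := H385.Rw_const_d2
      norm_num at this ⊢
      exact this)
  refine ⟨F, hF, κ, η, X0, hκ, hη, hX0, fun X Y T a1 a2 a3 a4 a5 => ?_⟩
  obtain ⟨b1, b2⟩ := hfin X Y T a1 a2 a3 a4 a5
  norm_num at b1 b2 ⊢
  exact ⟨b1, b2⟩

/-- **Zeros on the critical line**, cubic fields -/
theorem fin_three (hNv : StNv) (hSel : StSelG) (hd : Module.finrank ℚ K = 3)
    {𝔣 : Ideal (𝓞 K)} {ψ : Ideal (𝓞 K) →*₀ ℂ} (h : IsPrimChar K 𝔣 ψ) {p : ℕ} (hp : p.Prime)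
    (hpf : ¬ p ∣ Ideal.absNorm 𝔣) {P P' : Ideal (𝓞 K)} (hP : Ideal.absNorm P = p)
    (hP' : Ideal.absNorm P' = p) (hne : ψ P ≠ ψ P') :
    ∃ F : (q : ℕ) → DirichletCharacter ℂ q → ℂ → ℂ,
      (∀ (q : ℕ) (χ : DirichletCharacter ℂ q), 2 ≤ q →
        Nat.Coprime q (Ideal.absNorm 𝔣 * (discr K).natAbs) → χ.IsPrimitive →
        Differentiable ℂ (F q χ) ∧ ∀ s : ℂ, 1 < s.re → F q χ s = LI (tw ψ χ) s) ∧
      ∃ κ η X0 : ℝ, 1 ≤ κ ∧ 0 < η ∧ 1 ≤ X0 ∧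
      ∀ (X Y : ℕ) (T : ℝ), X0 ≤ X → κ * X ≤ Y → (Y : ℝ) ≤ (X : ℝ) ^ (1 + η) →
        (Real.log X) ^ 2 ≤ T → T ≤ (X : ℝ) ^ η →
        0.27945 * primFamM (Ideal.absNorm 𝔣 * (discr K).natAbs) X Y
            (fun q χ => (NN (F q χ) T (2 * T) : ℝ)) ≤
          primFamM (Ideal.absNorm 𝔣 * (discr K).natAbs) X Y
            (fun q χ => (Ns (F q χ) T (2 * T) : ℝ)) ∧
        0.639725 * primFamM (Ideal.absNorm 𝔣 * (discr K).natAbs) X Y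
            (fun q χ => (NN (F q χ) T (2 * T) : ℝ)) ≤
          primFamM (Ideal.absNorm 𝔣 * (discr K).natAbs) X Y
            (fun q χ => (Nd (F q χ) T (2 * T) : ℝ)) := by
  have hS := hSel K (Or.inr hd) 𝔣 ψ h p hp hpf P P' hP hP' hne
  obtain ⟨F, hF, κ, η, X0, hκ, hη, hX0, hfin⟩ := fin_of hNv h hS 0.943 1.72055 (by norm_num)
    (by linarith [Real.pi_gt_three]) (by
      rw [hd]
      exact_mod_cast Pool.Agent.Y772.NC.Rw_const_d3)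
  refine ⟨F, hF, κ, η, X0, hκ, hη, hX0, fun X Y T a1 a2 a3 a4 a5 => ?_⟩
  obtain ⟨b1, b2⟩ := hfin X Y T a1 a2 a3 a4 a5
  norm_num at b1 b2 ⊢
  exact ⟨b1, b2⟩

end

end Pool.Agent.Y773.G
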