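import Pool.Agent.Y773.HG.Defs
import Pool.Agent.Y773.HK.Geo

/-! # Number fields: trace, norm, lattice (arbitrary signature) -/

set_option autoImplicit false
set_option linter.unusedSectionVars false

open NumberField Complex Filter Topology MeasureTheory

namespace Pool.Agent.Y773.G

open Pool.Agent.Y773 (Idx db)

variable {K : Type} [Field K] [NumberField K]

/-! ### products over embeddings and places -/

/-- complex conjugation on the embeddings -/
noncomputable def cj (φ : K →+* ℂ) : K →+* ℂ := ComplexEmbedding.conjugate φ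

lemma cj_cj (φ : K →+* ℂ) : cj (cj φ) = φ := star_star φ

lemma cj_apply (φ : K →+* ℂ) (x : K) : cj φ x = (starRingEnd ℂ) (φ x) := rfl

lemma mk_cj (φ : K →+* ℂ) : InfinitePlace.mk (cj φ) = InfinitePlace.mk φ :=
  InfinitePlace.mk_conjugate_eq φ

variable (K) in
/-- complex conjugation, as a permutation -/
noncomputable def cjE : (K →+* ℂ) ≃ (K →+* ℂ) where
  toFun := cj
  invFun := cj
  left_inv := cj_cj
  right_inv := cj_cj

lemma cjE_apply (φ : K →+* ℂ) : cjE K φ = cj φ := rfl

lemma sum_cj {M : Type} [AddCommMonoid M] (F : (K →+* ℂ) → M) : ∑ φ, F (cj φ) = ∑ φ, F φ :=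
  (cjE K).sum_comp F

lemma prod_cj {M : Type} [CommMonoid M] (F : (K →+* ℂ) → M) : ∏ φ, F (cj φ) = ∏ φ, F φ :=
  (cjE K).prod_comp F

open Classical in
lemma prod_emb {M : Type} [CommMonoid M] (F : (K →+* ℂ) → M) :
    ∏ φ, F φ = ∏ w : InfinitePlace K,
      if w.IsReal then F w.embedding else F w.embedding * F (cj w.embedding) := by
  rw [← Finset.prod_fiberwise Finset.univ (fun φ : K →+* ℂ => InfinitePlace.mk φ) F]
  refine Finset.prod_congr rfl fun w _ => ?_
  have hset : ∀ φ : K →+* ℂ, φ ∈ Finset.univ.filter (fun φ => InfinitePlace.mk φ = w) ↔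
      φ = w.embedding ∨ φ = cj w.embedding := by
    intro φ
    rw [Finset.mem_filter]
    constructor
    · rintro ⟨-, h⟩
      rw [← w.mk_embedding, InfinitePlace.mk_eq_iff] at h
      rcases h with h | h
      · exact Or.inl h
      · right
        rw [← h]
        exact (cj_cj φ).symm
    · rintro (rfl | rfl)
      · exact ⟨Finset.mem_univ _, w.mk_embedding⟩
      · exact ⟨Finset.mem_univ _, by rw [mk_cj, w.mk_embedding]⟩
  split_ifs with hw
  · have hc : cj w.embedding = w.embedding := InfinitePlace.conjugate_embedding_eq_of_isReal hw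
    have : Finset.univ.filter (fun φ => InfinitePlace.mk φ = w) = {w.embedding} := by
      ext φ
      rw [hset, hc, or_self, Finset.mem_singleton]
    rw [this, Finset.prod_singleton]
  · have hne : w.embedding ≠ cj w.embedding := by
      intro h
      apply hw
      rw [InfinitePlace.isReal_iff]
      exact h.symm
    have : Finset.univ.filter (fun φ => InfinitePlace.mk φ = w) =
        {w.embedding, cj w.embedding} := by
      ext φ
      rw [hset, Finset.mem_insert, Finset.mem_singleton]
    rw [this, Finset.prod_pair hne]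

open Classical in
lemma sum_emb {M : Type} [AddCommMonoid M] (F : (K →+* ℂ) → M) :
    ∑ φ, F φ = ∑ w : InfinitePlace K,
      if w.IsReal then F w.embedding else F w.embedding + F (cj w.embedding) := by
  have h := prod_emb (K := K) (M := Multiplicative M) (fun φ => Multiplicative.ofAdd (F φ))
  have h2 := congrArg Multiplicative.toAdd h
  rw [toAdd_prod, toAdd_prod] at h2
  refine h2.trans (Finset.sum_congr rfl fun w _ => ?_)
  split_ifs <;> rfl

lemma sum_mk (f : InfinitePlace K → ℝ) :
    ∑ φ : K →+* ℂ, f (InfinitePlace.mk φ) = ∑ w, (w.mult : ℝ) * f w := by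
  rw [sum_emb]
  refine Finset.sum_congr rfl fun w _ => ?_
  rw [mk_cj, w.mk_embedding]
  unfold InfinitePlace.mult
  split_ifs
  · simp
  · push_cast
    ring

/-! ### the real coordinates -/

/-- the real coordinates `Re φ(x) + Im φ(x)` -/
noncomputable def rr (φ : K →+* ℂ) (x : K) : ℝ := (φ x).re + (φ x).im

lemma rr_add (φ : K →+* ℂ) (x y : K) : rr φ (x + y) = rr φ x + rr φ y := by
  unfold rr
  rw [map_add, Complex.add_re, Complex.add_im]
  ring

/-- `rr` as a homomorphism -/
noncomputable def rrH (φ : K →+* ℂ) : K →+ ℝ where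
  toFun := rr φ
  map_zero' := by simp [rr]
  map_add' := rr_add φ

lemma rrH_apply (φ : K →+* ℂ) (x : K) : rrH φ x = rr φ x := rfl

lemma rr_zero (φ : K →+* ℂ) : rr φ 0 = 0 := (rrH φ).map_zero

lemma rr_sum {ι : Type} (φ : K →+* ℂ) (s : Finset ι) (f : ι → K) :
    rr φ (∑ i ∈ s, f i) = ∑ i ∈ s, rr φ (f i) := map_sum (rrH φ) f s

lemma rr_int_mul (φ : K →+* ℂ) (n : ℤ) (x : K) : rr φ ((n : K) * x) = n * rr φ x := by
  unfold rr
  rw [map_mul, map_intCast]
  simp
  ring

lemma rr_nat_mul (φ : K →+* ℂ) (n : ℕ) (x : K) : rr φ ((n : K) * x) = n * rr φ x := by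
  unfold rr
  rw [map_mul, map_natCast]
  simp
  ring

open Classical in
lemma rr_real {φ : K →+* ℂ} (h : (InfinitePlace.mk φ).IsReal) (x : K) :
    rr φ x = rl (InfinitePlace.mk φ) x := by
  have h1 : (InfinitePlace.mk φ).embedding = φ :=
    InfinitePlace.embedding_mk_eq_of_isReal (InfinitePlace.isReal_of_mk_isReal h)
  have h2 := InfinitePlace.embedding_of_isReal_apply h x
  rw [h1] at h2
  unfold rr
  change _ = if (InfinitePlace.mk φ).IsReal then ((InfinitePlace.mk φ).embedding x).re else _
  rw [if_pos h, h1, ← h2, Complex.ofReal_im, add_zero]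

open Classical in
lemma rl_of_isReal {w : InfinitePlace K} (h : w.IsReal) (x : K) : rl w x = (w.embedding x).re := by
  change (if w.IsReal then (w.embedding x).re else _) = _
  rw [if_pos h]

open Classical in
lemma rl_of_isComplex {w : InfinitePlace K} (h : ¬ w.IsReal) (x : K) : rl w x = w x := by
  change (if w.IsReal then (w.embedding x).re else _) = _
  rw [if_neg h]

lemma rl_cast {w : InfinitePlace K} (h : w.IsReal) (x : K) : ((rl w x : ℝ) : ℂ) = w.embedding x := by
  rw [rl_of_isReal h]
  have h1 := InfinitePlace.embedding_of_isReal_apply h x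
  rw [← h1, Complex.ofReal_re]

lemma abs_rl (w : InfinitePlace K) (x : K) : |rl w x| = w x := by
  by_cases h : w.IsReal
  · have h1 := rl_cast h x
    rw [← w.norm_embedding_eq, ← h1, Complex.norm_real, Real.norm_eq_abs]
  · rw [rl_of_isComplex h, abs_of_nonneg (apply_nonneg w x)]

lemma rl_natCast (w : InfinitePlace K) (n : ℕ) : rl w (n : K) = n := by
  by_cases h : w.IsReal
  · rw [rl_of_isReal h, map_natCast, Complex.natCast_re]
  · rw [rl_of_isComplex h, InfinitePlace.map_natCast]

lemma rr_emb {w : InfinitePlace K} (h : w.IsReal) (x : K) : rr w.embedding x = rl w x := by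
  have := rr_real (φ := w.embedding) (by rwa [w.mk_embedding]) x
  rw [this, w.mk_embedding]

/-- the two coordinates at a complex place -/
lemma rr_sq_add (φ : K →+* ℂ) (x : K) : rr φ x ^ 2 + rr (cj φ) x ^ 2 = 2 * ‖φ x‖ ^ 2 := by
  unfold rr
  rw [cj_apply, Complex.conj_re, Complex.conj_im, ← Complex.normSq_eq_norm_sq, Complex.normSq_apply]
  ring

/-- the quadratic form -/
lemma sum_rr_sq (c : InfinitePlace K → ℝ) (x : K) :
    ∑ φ : K →+* ℂ, c (InfinitePlace.mk φ) * rr φ x ^ 2 = ∑ w, (w.mult : ℝ) * (c w * (w x) ^ 2) := by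
  rw [sum_emb]
  refine Finset.sum_congr rfl fun w _ => ?_
  split_ifs with hw
  · rw [w.mk_embedding, rr_emb hw, ← sq_abs, abs_rl, hw.mult_eq_one]
    simp
  · have hc : w.IsComplex := InfinitePlace.not_isReal_iff_isComplex.mp hw
    rw [mk_cj, w.mk_embedding, ← mul_add, rr_sq_add, w.norm_embedding_eq, hc.mult_eq_two]
    push_cast
    ring

/-! ### the trace -/

variable (K) in
/-- algebra homomorphisms and ring homomorphisms -/
noncomputable def ahE : (K →ₐ[ℚ] ℂ) ≃ (K →+* ℂ) :=
  (RingHom.equivRatAlgHom (R := K) (S := ℂ)).symm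

lemma trace_eq_sum (x : K) : ((Algebra.trace ℚ K x : ℚ) : ℂ) = ∑ φ : K →+* ℂ, φ x := by
  have h := trace_eq_sum_embeddings ℂ (K := ℚ) (L := K) (x := x)
  rw [← (ahE K).sum_comp]
  refine Eq.trans ?_ h
  simp

theorem trace_mul_eq_sum (x y : K) : ((Algebra.trace ℚ K (x * y) : ℚ) : ℝ) =
    ∑ φ : K →+* ℂ, rr φ x * rr (cj φ) y := by
  have h1 := congrArg Complex.re (trace_eq_sum (x * y))
  rw [Complex.re_sum] at h1
  have h2 : (((Algebra.trace ℚ K (x * y) : ℚ) : ℂ)).re = ((Algebra.trace ℚ K (x * y) : ℚ) : ℝ) := by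
    simp
  rw [h2] at h1
  rw [h1]
  have h3 : ∀ φ : K →+* ℂ, rr φ x * rr (cj φ) y = (φ (x * y)).re +
      ((φ x).im * (φ y).re - (φ x).re * (φ y).im) := by
    intro φ
    unfold rr
    rw [cj_apply, Complex.conj_re, Complex.conj_im, map_mul, Complex.mul_re]
    ring
  simp_rw [h3]
  rw [Finset.sum_add_distrib]
  have h4 : ∑ φ : K →+* ℂ, ((φ x).im * (φ y).re - (φ x).re * (φ y).im) =
      - ∑ φ : K →+* ℂ, ((φ x).im * (φ y).re - (φ x).re * (φ y).im) := by
    conv_lhs => rw [← sum_cj]
    rw [← Finset.sum_neg_distrib]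
    refine Finset.sum_congr rfl fun φ _ => ?_
    rw [cj_apply, cj_apply, Complex.conj_re, Complex.conj_im, Complex.conj_re, Complex.conj_im]
    ring
  have h5 : ∑ φ : K →+* ℂ, ((φ x).im * (φ y).re - (φ x).re * (φ y).im) = 0 := by linarith
  rw [h5, add_zero]

lemma card_emb : Fintype.card (K →+* ℂ) = Module.finrank ℚ K := by
  rw [← AlgHom.card ℚ K ℂ]
  exact Fintype.card_congr (ahE K).symm

/-! ### the lattice -/

lemma card_Idx : Fintype.card (Idx K) = Fintype.card (K →+* ℂ) := by
  rw [card_emb, ← Module.finrank_eq_card_chooseBasisIndex, RingOfIntegers.rank]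

lemma db_trace (i j : Idx K) :
    Algebra.trace ℚ K (db K i * integralBasis K j) = if i = j then 1 else 0 := by
  classical
  have := (integralBasis K).trace_traceDual_mul i j
  unfold db
  rw [this]
  by_cases h : i = j
  · simp [h]
  · simp [h, Ne.symm h]

/-- the embedding of the coordinates -/
noncomputable def emb (K : Type) [Field K] [NumberField K] :
    (Idx K → ℝ) →ₗ[ℝ] ((K →+* ℂ) → ℝ) where
  toFun v φ := ∑ j, v j * rr φ (integralBasis K j)
  map_add' u v := by
    funext w
    simp only [Pi.add_apply, add_mul, Finset.sum_add_distrib]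
  map_smul' c v := by
    funext w
    simp only [Pi.smul_apply, smul_eq_mul, RingHom.id_apply, Finset.mul_sum, mul_assoc]

/-- the dual embedding -/
noncomputable def embD (K : Type) [Field K] [NumberField K] :
    ((K →+* ℂ) → ℝ) →ₗ[ℝ] (Idx K → ℝ) where
  toFun u i := ∑ φ, u φ * rr (cj φ) (db K i)
  map_add' u v := by
    funext w
    simp only [Pi.add_apply, add_mul, Finset.sum_add_distrib]
  map_smul' c v := by
    funext w
    simp only [Pi.smul_apply, smul_eq_mul, RingHom.id_apply, Finset.mul_sum, mul_assoc]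

lemma embD_emb (v : Idx K → ℝ) : embD K (emb K v) = v := by
  classical
  funext i
  simp only [embD, emb, LinearMap.coe_mk, AddHom.coe_mk]
  have h : ∀ j, ∑ φ : K →+* ℂ, rr φ (integralBasis K j) * rr (cj φ) (db K i) =
      if i = j then 1 else 0 := by
    intro j
    rw [← trace_mul_eq_sum, mul_comm, db_trace]
    split_ifs <;> simp
  calc ∑ φ, (∑ j, v j * rr φ (integralBasis K j)) * rr (cj φ) (db K i)
      = ∑ j, v j * ∑ φ, rr φ (integralBasis K j) * rr (cj φ) (db K i) := by
        simp only [Finset.sum_mul, Finset.mul_sum]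
        rw [Finset.sum_comm]
        refine Finset.sum_congr rfl fun j _ => Finset.sum_congr rfl fun w _ => by ring
    _ = v i := by
        simp only [h, mul_ite, mul_one, mul_zero]
        rw [Finset.sum_ite_eq Finset.univ i v]
        simp

/-- `emb` is an isomorphism -/
noncomputable def embE (K : Type) [Field K] [NumberField K] :
    (Idx K → ℝ) ≃ₗ[ℝ] ((K →+* ℂ) → ℝ) :=
  LinearEquiv.ofInjectiveOfFinrankEq (emb K)
    (Function.LeftInverse.injective (g := embD K) embD_emb) (by
      rw [Module.finrank_pi, Module.finrank_pi, card_Idx])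

lemma embE_apply (v : Idx K → ℝ) : embE K v = emb K v := rfl

/-- change of variables -/
lemma exists_vol (K : Type) [Field K] [NumberField K] :
    ∃ V : ℝ, 0 < V ∧ ∀ f : ((K →+* ℂ) → ℝ) → ℂ,
      ∫ v : Idx K → ℝ, f (embE K v) = ((V⁻¹ : ℝ) : ℂ) * ∫ u, f u := by
  classical
  set L : (Idx K → ℝ) ≃L[ℝ] ((K →+* ℂ) → ℝ) := (embE K).toContinuousLinearEquiv with hL
  have h1 : (Measure.map L (volume : Measure (Idx K → ℝ))).IsAddHaarMeasure := by
    exact L.toContinuousAddEquiv.isAddHaarMeasure_map _
  obtain ⟨c, hc⟩ : ∃ c : NNReal, Measure.map L (volume : Measure (Idx K → ℝ)) =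
      c • (volume : Measure ((K →+* ℂ) → ℝ)) := by
    refine ⟨_, Measure.isAddLeftInvariant_eq_smul _ _⟩
  have hc0 : c ≠ 0 := by
    rintro rfl
    rw [zero_smul] at hc
    have := h1.toIsOpenPosMeasure.open_pos Set.univ isOpen_univ Set.univ_nonempty
    rw [hc] at this
    simp at this
  refine ⟨(c : ℝ)⁻¹, by positivity, fun f => ?_⟩
  have h2 : ∫ v : Idx K → ℝ, f (embE K v) = ∫ u, f u ∂(Measure.map L volume) :=
    (L.toHomeomorph.toMeasurableEquiv.measurableEmbedding.integral_map (μ := volume) f).symm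
  rw [h2, hc, integral_smul_nnreal_measure, inv_inv]
  rfl

end Pool.Agent.Y773.G
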