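import Pool.Agent.Y773.HG.Sq
import Pool.Agent.Y773.HK.Gss

/-! # The finite Fourier transform of a primitive ray class character -/

set_option autoImplicit false
set_option linter.unusedSectionVars false

open NumberField Complex Filter Topology Set

namespace Pool.Agent.Y773.G

section

variable {K : Type} [Field K] [NumberField K]

lemma trace_dvd_conv {k : ℕ} (hk : 0 < k) {u : 𝓞 K}
    (h : ∀ o : 𝓞 K, (k : ℤ) ∣ Algebra.trace ℤ (𝓞 K) (u * o)) {δ : 𝓞 K}
    (hδ : δ ∈ differentIdeal ℤ (𝓞 K)) : u * δ ∈ Ideal.span {(k : 𝓞 K)} := by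
  have hk1 : (k : K) ≠ 0 := by exact_mod_cast hk.ne'
  have h1 : ∀ a : 𝓞 K, ∃ n : ℤ, Algebra.trace ℚ K ((u : K) / k * a) = n := by
    intro a
    obtain ⟨n, hn⟩ := h a
    refine ⟨n, ?_⟩
    have h2 : ((Algebra.trace ℤ (𝓞 K) (u * a) : ℤ) : ℚ) = ((k * n : ℤ) : ℚ) := by rw [hn]
    rw [Algebra.coe_trace_int] at h2
    have h3 : (((u * a : 𝓞 K)) : K) = (k : ℚ) • ((u : K) / k * a) := by
      rw [Algebra.smul_def, map_natCast]
      refine (map_mul (algebraMap (𝓞 K) K) u a).trans ?_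
      field_simp
    rw [h3, map_smul] at h2
    have hk2 : (k : ℚ) ≠ 0 := by exact_mod_cast hk.ne'
    rw [smul_eq_mul] at h2
    push_cast at h2
    exact mul_left_cancel₀ hk2 h2
  obtain ⟨x, hx⟩ := dual_int hδ _ h1
  rw [Ideal.mem_span_singleton']
  refine ⟨x, ?_⟩
  have h4 : ((x * (k : 𝓞 K) : 𝓞 K) : K) = ((u * δ : 𝓞 K) : K) := by
    refine (map_mul (algebraMap (𝓞 K) K) x (k : 𝓞 K)).trans ?_
    refine Eq.trans ?_ (map_mul (algebraMap (𝓞 K) K) u δ).symm
    refine (congrArg (· * algebraMap (𝓞 K) K (k : 𝓞 K)) hx).trans ?_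
    rw [map_natCast]
    field_simp
  exact_mod_cast h4

end

end Pool.Agent.Y773.G
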