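import Pool.Agent.Y773.HG.Mel
import Pool.Agent.Y773.HK.Hf

/-! # Properties of the function `hf`: continuity, decay, reflection -/

set_option autoImplicit false
set_option linter.unusedSectionVars false

open NumberField Complex Filter Topology MeasureTheory Set
open NumberField.Units NumberField.Units.dirichletUnitTheorem

namespace Pool.Agent.Y773.G

variable {K : Type} [Field K] [NumberField K]

lemma hf_eq (e : InfinitePlace K → ℕ) (Ψ : 𝓞 K → ℂ) (t : ℝ) : hf e Ψ t =
    ∫ θ in Icc (0 : Fin (rank K) → ℝ) 1, th e Ψ (el K ((2 / Module.finrank ℚ K) * Real.log t, θ)) :=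
  setIntegral_congr_set (cube_ae K)

lemma continuous_hf_aux {e : InfinitePlace K → ℕ} {Ψ : 𝓞 K → ℂ} (he : ∀ w, e w ≤ 1) {B : ℝ}
    (hB : ∀ x, ‖Ψ x‖ ≤ B) : Continuous fun τ : ℝ =>
      ∫ θ in Icc (0 : Fin (rank K) → ℝ) 1, th e Ψ (el K (τ, θ)) := by
  have h1 : Continuous (el K) := (el K).continuous_of_finiteDimensional
  refine continuous_parametric_integral_of_continuous (f := fun τ θ => th e Ψ (el K (τ, θ))) ?_
    isCompact_Icc
  exact (continuous_th he hB).comp h1

lemma continuousOn_hf {e : InfinitePlace K → ℕ} {Ψ : 𝓞 K → ℂ} (he : ∀ w, e w ≤ 1) {B : ℝ}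
    (hB : ∀ x, ‖Ψ x‖ ≤ B) : ContinuousOn (hf e Ψ) (Ioi 0) := by
  have h1 := continuous_hf_aux (K := K) he hB
  have h2 : hf e Ψ = (fun τ : ℝ => ∫ θ in Icc (0 : Fin (rank K) → ℝ) 1, th e Ψ (el K (τ, θ))) ∘
      (fun t => (2 / Module.finrank ℚ K) * Real.log t) := funext fun t => hf_eq e Ψ t
  rw [h2]
  refine h1.comp_continuousOn ?_
  refine continuousOn_const.mul (Real.continuousOn_log.mono fun t ht => ?_)
  exact ne_of_gt ht

/-- decay -/
lemma hf_decay {e : InfinitePlace K → ℕ} {Ψ : 𝓞 K → ℂ} (h : Nice e Ψ) (r : ℝ) :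
    hf e Ψ =O[atTop] (fun t => t ^ r) := by
  obtain ⟨B, hB⟩ := h.bdd
  obtain ⟨b, hb0, hb⟩ := exists_el_bound K
  have hn : (0 : ℝ) < Module.finrank ℚ K := by exact_mod_cast Module.finrank_pos
  set n : ℝ := ((Module.finrank ℚ K : ℕ) : ℝ) with hn'
  have hBn : 0 ≤ B := (norm_nonneg _).trans (hB 0)
  -- the bound
  have h1 : ∀ᶠ t : ℝ in atTop, ‖hf e Ψ t‖ ≤
      B * C0 K * Real.exp (-(Real.exp (-b) * t ^ (2 / n))) := by
    filter_upwards [eventually_ge_atTop (Real.exp (b * n / 2))] with t ht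
    have ht0 : 0 < t := lt_of_lt_of_le (Real.exp_pos _) ht
    have hlog : b ≤ 2 / n * Real.log t := by
      have h2 : b * n / 2 ≤ Real.log t := by
        rw [Real.le_log_iff_exp_le ht0]; exact ht
      calc b = 2 / n * (b * n / 2) := by field_simp
        _ ≤ _ := by gcongr
    rw [hf_eq]
    have h3 : ∀ θ ∈ Icc (0 : Fin (rank K) → ℝ) 1, ‖th e Ψ (el K (2 / n * Real.log t, θ))‖ ≤
        B * C0 K * Real.exp (-(Real.exp (-b) * t ^ (2 / n))) := by
      intro θ hθ
      have h4 : ∀ i, |θ i| ≤ 1 := by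
        intro i
        rw [abs_of_nonneg (hθ.1 i)]
        exact hθ.2 i
      have h5 := norm_th_le h.he hB h.zero (c := 2 / n * Real.log t - b) (by linarith)
        (y := el K (2 / n * Real.log t, θ)) (fun w => hb (2 / n * Real.log t, θ) h4 w)
      refine h5.trans (le_of_eq ?_)
      congr 3
      rw [sub_eq_add_neg, Real.exp_add, Real.rpow_def_of_pos ht0, mul_comm (Real.log t), mul_comm]
    have h6 := norm_setIntegral_le_of_norm_le_const (μ := volume) (s := Icc (0 : Fin (rank K) → ℝ) 1)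
      (by rw [volume_cube]; exact ENNReal.one_lt_top) h3
    refine h6.trans (le_of_eq ?_)
    rw [Measure.real, volume_cube]
    simp
  refine (Asymptotics.IsBigO.of_bound' (h1.mono fun t ht => ?_)).trans
    (g := fun t : ℝ => B * C0 K * Real.exp (-(Real.exp (-b) * t ^ (2 / n)))) ?_
  · exact ht.trans (le_abs_self _)
  -- exponential decay beats powers
  have h7 : (fun t : ℝ => Real.exp (-(Real.exp (-b) * t ^ (2 / n)))) =O[atTop] (fun t => t ^ r) := by
    have h8 : (fun x : ℝ => Real.exp (-(Real.exp (-b)) * x)) =O[atTop] fun x => x ^ (r * n / 2) := by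
      exact (isLittleO_exp_neg_mul_rpow_atTop (Real.exp_pos (-b)) (r * n / 2)).isBigO
    have h9 := h8.comp_tendsto (tendsto_rpow_atTop (y := 2 / n) (by positivity))
    refine (h9.congr' (Eventually.of_forall fun t => ?_) ?_)
    · simp only [Function.comp_apply, neg_mul]
    · filter_upwards [eventually_gt_atTop 0] with t ht
      simp only [Function.comp_apply]
      rw [← Real.rpow_mul ht.le]
      congr 1
      field_simp
  exact h7.const_mul_left _

/-- equivariance under the units -/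
def Eqv (e : InfinitePlace K → ℕ) (Ψ : 𝓞 K → ℂ) : Prop :=
  ∀ (u : (𝓞 K)ˣ) (x : 𝓞 K), Ψ (u * x) = sg e ((u : 𝓞 K) : K) * Ψ x

lemma GM_mul {e : InfinitePlace K → ℕ} (he : ∀ w, e w ≤ 1)
    (hc : ∀ w : InfinitePlace K, w.IsComplex → e w = 0) (a : InfinitePlace K → ℝ) {u : K}
    (hu : u ≠ 0) (x : K) : ((GM e a (u * x) : ℝ) : ℂ) =
      sg e u * ((GM e (fun w => a w * w u) x : ℝ) : ℂ) := by
  classical
  unfold GM G0 sg
  rw [prod_emb, prod_emb, Complex.ofReal_prod, Complex.ofReal_prod, ← Finset.prod_mul_distrib]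
  refine Finset.prod_congr rfl fun w _ => ?_
  by_cases hw : w.IsReal
  · rw [if_pos hw, if_pos hw]
    unfold eM
    have h1 : rl w u ≠ 0 := (map_ne_zero (rl w)).mpr hu
    simp only
    rw [w.mk_embedding, rr_emb hw, rr_emb hw, map_mul]
    have h4 : a w * (rl w u * rl w x) = (a w * rl w x) * rl w u := by ring
    rw [h4, g0_sign (he w) _ h1, abs_rl]
    congr 3
    ring
  · have hc' : w.IsComplex := InfinitePlace.not_isReal_iff_isComplex.mp hw
    rw [if_neg hw, if_neg hw]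
    unfold eM
    simp only
    rw [mk_cj, w.mk_embedding, hc w hc', pow_zero, one_mul]
    unfold g0
    simp only [pow_zero, one_mul]
    rw [← Real.exp_add, ← Real.exp_add]
    congr 2
    have h2 := rr_sq_add w.embedding x
    have h3 := rr_sq_add w.embedding (u * x)
    rw [w.norm_embedding_eq] at h2 h3
    rw [map_mul] at h3
    rw [mul_pow, mul_pow, mul_pow, mul_pow, mul_pow]
    linear_combination (-Real.pi * a w ^ 2) * h3 + (Real.pi * a w ^ 2 * (w u) ^ 2) * h2

lemma th_unit {e : InfinitePlace K → ℕ} (he : ∀ w, e w ≤ 1)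
    (hc : ∀ w : InfinitePlace K, w.IsComplex → e w = 0) {Ψ : 𝓞 K → ℂ} (h : Eqv e Ψ)
    (u : (𝓞 K)ˣ) (y : InfinitePlace K → ℝ) :
    th e Ψ (fun w => y w + 2 * Real.log (w (u : K))) = th e Ψ y := by
  have hpos : ∀ w : InfinitePlace K, 0 < w (u : K) := fun w => by
    rw [InfinitePlace.pos_iff]
    simp
  unfold th
  rw [← (Units.mulLeft u).tsum_eq (fun x : 𝓞 K => Ψ x *
    ((GM e (fun w => Real.exp (y w / 2)) (x : K) : ℝ) : ℂ))]
  refine tsum_congr fun x => ?_
  rw [Units.mulLeft_apply, h u x]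
  have h1 : ((GM e (fun w => Real.exp (y w / 2)) (((u : 𝓞 K) * x : 𝓞 K) : K) : ℝ) : ℂ) =
      sg e ((u : 𝓞 K) : K) * ((GM e (fun w => Real.exp ((y w + 2 * Real.log (w (u : K))) / 2))
        (x : K) : ℝ) : ℂ) := by
    have h2 : (((u : 𝓞 K) * x : 𝓞 K) : K) = ((u : 𝓞 K) : K) * (x : K) :=
      map_mul (algebraMap (𝓞 K) K) _ _
    rw [h2, GM_mul he hc _ (by simp)]
    congr 3
    funext w
    rw [add_div, Real.exp_add, mul_div_cancel_left₀ _ (two_ne_zero), Real.exp_log (hpos w)]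
  rw [h1]
  have h6 := sg_sq e (x := ((u : 𝓞 K) : K)) (by simp)
  calc _ = (1 : ℂ) * (Ψ x * ((GM e (fun w => Real.exp ((y w + 2 * Real.log (w (u : K))) / 2))
        (x : K) : ℝ) : ℂ)) := by rw [one_mul]
    _ = _ := by rw [← h6]; ring

lemma th_periodic {e : InfinitePlace K → ℕ} (he : ∀ w, e w ≤ 1)
    (hc : ∀ w : InfinitePlace K, w.IsComplex → e w = 0) {Ψ : 𝓞 K → ℂ} (h : Eqv e Ψ)
    (τ : ℝ) (θ : Fin (rank K) → ℝ) (m : Fin (rank K) → ℤ) :
    th e Ψ (el K (τ, θ + lp m)) = th e Ψ (el K (τ, θ)) := by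
  rw [← th_unit he hc h (unE K (1, m)) (el K (τ, θ))]
  congr 1
  funext w
  rw [place_unE, Real.log_exp]
  simp only [el, LinearMap.coe_mk, AddHom.coe_mk, Pi.add_apply, lp, add_mul,
    Finset.sum_add_distrib]
  have h2 : ∑ i, (m i : ℝ) * (2 * Real.log (w ((fundSystem K i : (𝓞 K)ˣ) : K))) =
      2 * ∑ i, (m i : ℝ) * Real.log (w ((fundSystem K i : (𝓞 K)ˣ) : K)) := by
    rw [Finset.mul_sum]
    exact Finset.sum_congr rfl fun i _ => by ring
  rw [h2]
  ring

lemma int_reflect {e : InfinitePlace K → ℕ} (he : ∀ w, e w ≤ 1)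
    (hc : ∀ w : InfinitePlace K, w.IsComplex → e w = 0) {Ψ : 𝓞 K → ℂ} (h : Eqv e Ψ)
    (τ : ℝ) : ∫ θ in Icc (0 : Fin (rank K) → ℝ) 1, th e Ψ (el K (τ, -θ)) =
      ∫ θ in Icc (0 : Fin (rank K) → ℝ) 1, th e Ψ (el K (τ, θ)) := by
  have h1 : ∀ θ : Fin (rank K) → ℝ, th e Ψ (el K (τ, -θ)) = th e Ψ (el K (τ, 1 - θ)) := by
    intro θ
    rw [← th_periodic he hc h τ (-θ) (fun _ => 1)]
    congr 3
    funext i
    simp [lp]
    ring
  simp_rw [h1]
  have hmp := Measure.measurePreserving_sub_left (volume : Measure (Fin (rank K) → ℝ)) 1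
  have hme := (Homeomorph.subLeft (1 : Fin (rank K) → ℝ)).toMeasurableEquiv.measurableEmbedding
  have h2 := hmp.setIntegral_preimage_emb hme (fun θ => th e Ψ (el K (τ, θ))) (Icc 0 1)
  rw [← h2]
  congr 2
  ext θ
  simp only [mem_preimage, mem_Icc]
  constructor
  · rintro ⟨a, b⟩
    exact ⟨sub_nonneg.mpr b, sub_le_self _ a⟩
  · rintro ⟨a, b⟩
    constructor
    · intro i
      have := b i
      simp only [Pi.sub_apply, Pi.one_apply] at this
      simp only [Pi.zero_apply]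
      linarith
    · intro i
      have := a i
      simp only [Pi.sub_apply, Pi.one_apply, Pi.zero_apply] at this
      simp only [Pi.one_apply]
      linarith

end Pool.Agent.Y773.G
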