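import Pool.Agent.Y773.HG.Hf
import Pool.Agent.Y773.HK.Hf2

/-! # The reflection formula for `hf` -/

set_option autoImplicit false
set_option linter.unusedSectionVars false

open NumberField Complex Filter Topology MeasureTheory Set
open NumberField.Units NumberField.Units.dirichletUnitTheorem

namespace Pool.Agent.Y773.G

variable {K : Type} [Field K] [NumberField K]

lemma exp_tr_per {D m : ℕ} (hm : 0 < m) (hD : 0 < D) {x : 𝓞 K}
    (hx : ∀ r : 𝓞 K, (D : ℤ) ∣ Algebra.trace ℤ (𝓞 K) (x * r)) (r z : 𝓞 K) :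
    cexp (2 * Real.pi * I * ((Algebra.trace ℤ (𝓞 K) (x * (r + m * z)) : ℤ) : ℂ) /
      ((m * D : ℕ) : ℂ)) =
    cexp (2 * Real.pi * I * ((Algebra.trace ℤ (𝓞 K) (x * r) : ℤ) : ℂ) / ((m * D : ℕ) : ℂ)) := by
  obtain ⟨k, hk⟩ := hx z
  have h1 : Algebra.trace ℤ (𝓞 K) (x * (r + m * z)) =
      Algebra.trace ℤ (𝓞 K) (x * r) + m * (D * k) := by
    rw [← hk, mul_add, map_add]
    congr 1
    have : x * (m * z) = (m : ℤ) • (x * z) := by
      rw [zsmul_eq_mul]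
      push_cast
      ring
    rw [this, map_smul]
    simp
  rw [h1, Complex.exp_eq_exp_iff_exists_int]
  refine ⟨k, ?_⟩
  have hm1 : (m : ℂ) ≠ 0 := by exact_mod_cast hm.ne'
  have hD1 : (D : ℂ) ≠ 0 := by exact_mod_cast hD.ne'
  push_cast
  field_simp

lemma FT_eqv {e : InfinitePlace K → ℕ} {Ψ : 𝓞 K → ℂ} (h : Eqv e Ψ) {m D : ℕ} (hm : 0 < m)
    (hD : 0 < D) (hper : ∀ x z : 𝓞 K, Ψ (x + m * z) = Ψ x) : Eqv e (FT D m Ψ) := by
  intro u x
  have := finite_quot (K := K) hm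
  have := Fintype.ofFinite (𝓞 K ⧸ Ideal.span {(m : 𝓞 K)})
  have hiff : (∀ r : 𝓞 K, (D : ℤ) ∣ Algebra.trace ℤ (𝓞 K) (u * x * r)) ↔
      ∀ r : 𝓞 K, (D : ℤ) ∣ Algebra.trace ℤ (𝓞 K) (x * r) := by
    constructor
    · intro h1 r
      have := h1 (((u⁻¹ : (𝓞 K)ˣ) : 𝓞 K) * r)
      have e1 : (u : 𝓞 K) * x * (((u⁻¹ : (𝓞 K)ˣ) : 𝓞 K) * r) =
          ((u : 𝓞 K) * ((u⁻¹ : (𝓞 K)ˣ) : 𝓞 K)) * (x * r) := by ring
      rw [e1, Units.mul_inv, one_mul] at this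
      exact this
    · intro h1 r
      have := h1 (u * r)
      have e1 : (u : 𝓞 K) * x * r = x * (u * r) := by ring
      rw [e1]
      exact this
  unfold FT
  by_cases hx : ∀ r : 𝓞 K, (D : ℤ) ∣ Algebra.trace ℤ (𝓞 K) (x * r)
  · rw [if_pos hx, if_pos (hiff.mpr hx), finsum_eq_sum_of_fintype, finsum_eq_sum_of_fintype]
    rw [← sum_unit (f := fun r => Ψ r * cexp (2 * Real.pi * I *
      ((Algebra.trace ℤ (𝓞 K) (x * r) : ℤ) : ℂ) / ((m * D : ℕ) : ℂ))) (fun r z => by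
        rw [hper, exp_tr_per hm hD hx]) u, Finset.mul_sum]
    refine Finset.sum_congr rfl fun r _ => ?_
    rw [h u]
    have h6 := sg_sq e (x := ((u : 𝓞 K) : K)) (by simp)
    have e1 : (u : 𝓞 K) * x * Quotient.out r = x * (u * Quotient.out r) := by ring
    rw [e1]
    calc _ = (1 : ℂ) * (Ψ (Quotient.out r) * cexp (2 * Real.pi * I *
      ((Algebra.trace ℤ (𝓞 K) (x * (u * Quotient.out r)) : ℤ) : ℂ) / ((m * D : ℕ) : ℂ))) := by
          rw [one_mul]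
      _ = _ := by rw [← h6]; ring
  · rw [if_neg hx, if_neg (fun h1 => hx (hiff.mp h1)), mul_zero]

/-- the constant of the reflection formula -/
theorem hf_fe (K : Type) [Field K] [NumberField K] : ∃ V : ℝ, 0 < V ∧
    ∀ (e : InfinitePlace K → ℕ), (∀ w, e w ≤ 1) → (∀ w : InfinitePlace K, w.IsComplex → e w = 0) →
    ∀ (Ψ : 𝓞 K → ℂ) (B : ℝ), (∀ x, ‖Ψ x‖ ≤ B) →
    Eqv e Ψ →
    ∀ m D : ℕ, 0 < m → 0 < D → (D : 𝓞 K) ∈ differentIdeal ℤ (𝓞 K) →
    (∀ x z : 𝓞 K, Ψ (x + m * z) = Ψ x) → ∀ t : ℝ, 0 < t →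
      hf e Ψ (1 / t) = (((V⁻¹ : ℝ) : ℂ) * ((m : ℂ) ^ (Module.finrank ℚ K))⁻¹ * (-I) ^ (∑ φ : K →+* ℂ, eM e φ)) *
        (t : ℂ) * hf e (FT D m Ψ) (t / ((m * D : ℕ) : ℝ) ^ (Module.finrank ℚ K)) := by
  obtain ⟨V, hV0, hV⟩ := th_poisson K
  refine ⟨V, hV0, fun e he hc Ψ B hB hE m D hm hD hDD hper t ht => ?_⟩
  have hn : (0 : ℝ) < Module.finrank ℚ K := by exact_mod_cast Module.finrank_pos
  have hmD : (0 : ℝ) < m * D := by
    have h1 : (0 : ℝ) < m := by exact_mod_cast hm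
    have h2 : (0 : ℝ) < D := by exact_mod_cast hD
    positivity
  set κ : ℂ := ((V⁻¹ : ℝ) : ℂ) * ((m : ℂ) ^ (Module.finrank ℚ K))⁻¹ * (-I) ^ (∑ φ : K →+* ℂ, eM e φ) with hκ
  set τ : ℝ := 2 / Module.finrank ℚ K * Real.log t with hτ
  have h1 : (2 / Module.finrank ℚ K : ℝ) * Real.log (1 / t) = -τ := by
    rw [one_div, Real.log_inv, hτ]
    ring
  have h2 : (2 / Module.finrank ℚ K : ℝ) *
      Real.log (t / ((m * D : ℕ) : ℝ) ^ (Module.finrank ℚ K)) = τ - 2 * Real.log (m * D) := by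
    push_cast
    rw [Real.log_div ht.ne' (by positivity), Real.log_pow, hτ]
    field_simp
  rw [hf_eq, hf_eq, h1, h2]
  have h3 : ∀ θ : Fin (rank K) → ℝ, th e Ψ (el K (-τ, θ)) =
      κ * (t : ℂ) * th e (FT D m Ψ) (el K (τ - 2 * Real.log (m * D), -θ)) := by
    intro θ
    rw [hV e he Ψ B hB m D hm hD hDD hper]
    rw [sum_el]
    have h4 : Real.exp (-(Module.finrank ℚ K * ((-τ, θ) : PP K).1) / 2) = t := by
      have : -(Module.finrank ℚ K * ((-τ, θ) : PP K).1) / 2 = Real.log t := by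
        simp only [hτ]
        field_simp
      rw [this, Real.exp_log ht]
    rw [h4]
    congr 2
    funext w
    simp only [el, LinearMap.coe_mk, AddHom.coe_mk, Pi.neg_apply]
    have h5 : ∑ i, -θ i * (2 * Real.log (w ((fundSystem K i : (𝓞 K)ˣ) : K))) =
        -∑ i, θ i * (2 * Real.log (w ((fundSystem K i : (𝓞 K)ˣ) : K))) := by
      rw [← Finset.sum_neg_distrib]
      exact Finset.sum_congr rfl fun i _ => by ring
    rw [h5]
    ring
  simp_rw [h3]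
  rw [integral_const_mul, int_reflect he hc (FT_eqv hE hm hD hper)]

end Pool.Agent.Y773.G
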