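import Pool.Agent.Y773.HG.Fam
import Pool.Agent.Y773.HK.Per

/-! # Periodicity of `Ψ_𝔟` -/

set_option autoImplicit false
set_option linter.unusedSectionVars false

open NumberField Complex Filter Topology Set

namespace Pool.Agent.Y773.G

section

variable {K : Type} [Field K] [NumberField K]

lemma norm_sg {e : InfinitePlace K → ℕ} {x : K} (hx : x ≠ 0) : ‖sg e x‖ = 1 := by
  have h := congrArg norm (sg_sq e hx)
  rw [norm_mul, norm_one] at h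
  nlinarith [norm_nonneg (sg e x)]

lemma sg_ne_zero {e : InfinitePlace K → ℕ} {x : K} (hx : x ≠ 0) : sg e x ≠ 0 := by
  rw [← norm_ne_zero_iff, norm_sg hx]; exact one_ne_zero

variable {𝔪 : Ideal (𝓞 K)} {e : InfinitePlace K → ℕ} {η : Ideal (𝓞 K) →*₀ ℂ}

lemma IsModChar.ne_bot_of_coprime (h : IsModChar 𝔪 e η) {𝔞 : Ideal (𝓞 K)} (h𝔞 : IsCoprime 𝔞 𝔪) :
    𝔞 ≠ ⊥ := by
  rintro rfl
  rw [Ideal.isCoprime_iff_sup_eq, bot_sup_eq] at h𝔞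
  exact h.ne_top h𝔞

lemma IsModChar.norm_eq_one (h : IsModChar 𝔪 e η) {𝔞 : Ideal (𝓞 K)} (h𝔞 : IsCoprime 𝔞 𝔪) :
    ‖η 𝔞‖ = 1 := by
  obtain ⟨k, x, hk, hx0, hx1, hx⟩ := exists_pow h.ne_bot (h.ne_bot_of_coprime h𝔞) h𝔞
  have h1 := h.sig x hx0 hx1
  rw [← hx, map_pow] at h1
  have h2 := congrArg norm h1
  rw [norm_pow, norm_sg (by exact_mod_cast hx0)] at h2
  exact (pow_eq_one_iff_of_nonneg (norm_nonneg _) hk.ne').mp h2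

lemma IsModChar.norm_le_one (h : IsModChar 𝔪 e η) (𝔞 : Ideal (𝓞 K)) : ‖η 𝔞‖ ≤ 1 := by
  by_cases h0 : IsCoprime 𝔞 𝔪
  · exact (h.norm_eq_one h0).le
  · have : η 𝔞 = 0 := by
      by_contra h1
      exact h0 ((h.supp 𝔞).mp h1)
    rw [this, norm_zero]; norm_num

lemma mem_iff_exists_mul {𝔟 : Ideal (𝓞 K)} {x : 𝓞 K} :
    x ∈ 𝔟 ↔ ∃ 𝔞 : Ideal (𝓞 K), 𝔞 * 𝔟 = Ideal.span {x} := by
  constructor
  · intro hx
    have h1 : 𝔟 ∣ Ideal.span {x} := by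
      rw [Ideal.dvd_span_singleton]; exact hx
    obtain ⟨𝔞, h𝔞⟩ := h1
    exact ⟨𝔞, by rw [h𝔞, mul_comm]⟩
  · rintro ⟨𝔞, h𝔞⟩
    rw [← Ideal.span_singleton_le_iff_mem, ← h𝔞]
    exact Ideal.mul_le_right

lemma Ps_of_eq {𝔟 𝔞 : Ideal (𝓞 K)} (h𝔟 : 𝔟 ≠ ⊥) {x : 𝓞 K} (h : 𝔞 * 𝔟 = Ideal.span {x}) :
    Ps η e 𝔟 x = η 𝔞 * sg e (x : K) := by
  unfold Ps
  rw [qt_eq h𝔟 h]

lemma Ps_of_notMem {𝔟 : Ideal (𝓞 K)} {x : 𝓞 K} (h : x ∉ 𝔟) : Ps η e 𝔟 x = 0 := by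
  unfold Ps
  rw [qt_eq_bot (fun h1 => h (mem_iff_exists_mul.mpr h1)), ← Ideal.zero_eq_bot, map_zero, zero_mul]

lemma norm_Ps_le (h : ∀ 𝔞, ‖η 𝔞‖ ≤ 1) (𝔟 : Ideal (𝓞 K)) (x : 𝓞 K) : ‖Ps η e 𝔟 x‖ ≤ 1 := by
  unfold Ps
  rw [norm_mul]
  exact mul_le_one₀ (h _) (norm_nonneg _) (norm_sg_le e _)

lemma Ps_unit_smul (𝔟 : Ideal (𝓞 K)) (u : (𝓞 K)ˣ) (x : 𝓞 K) :
    Ps η e 𝔟 (u * x) = sg e ((u : 𝓞 K) : K) * Ps η e 𝔟 x := by
  have h1 : Ideal.span {(u : 𝓞 K) * x} = Ideal.span {x} := by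
    rw [← Ideal.span_singleton_mul_span_singleton, Ideal.span_singleton_eq_top.mpr u.isUnit,
      ← Ideal.one_eq_top, one_mul]
  have h2 : qt 𝔟 ((u : 𝓞 K) * x) = qt 𝔟 x := by
    unfold qt
    rw [h1]
  unfold Ps
  rw [h2]
  push_cast
  rw [sg_mul]
  ring

/-- the coprime part of periodicity -/
lemma IsModChar.per_aux (h : IsModChar 𝔪 e η) {𝔟 𝔞 𝔞' : Ideal (𝓞 K)} (h𝔟 : 𝔟 ≠ ⊥) {x y : 𝓞 K}
    (hx : 𝔞 * 𝔟 = Ideal.span {x}) (hy : 𝔞' * 𝔟 = Ideal.span {y}) (hxy : x - y ∈ 𝔟 * 𝔪)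
    (h1 : IsCoprime 𝔞' 𝔪) (h2 : IsCoprime 𝔞 𝔪) :
    η 𝔞 * sg e (x : K) = η 𝔞' * sg e (y : K) := by
  have h𝔞'0 := h.ne_bot_of_coprime h1
  have h𝔞0 := h.ne_bot_of_coprime h2
  have hx0 : x ≠ 0 := by
    rintro rfl
    rw [Ideal.span_singleton_eq_bot.mpr rfl] at hx
    exact (mul_ne_zero h𝔞0 h𝔟) hx
  have hy0 : y ≠ 0 := by
    rintro rfl
    rw [Ideal.span_singleton_eq_bot.mpr rfl] at hy
    exact (mul_ne_zero h𝔞'0 h𝔟) hy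
  obtain ⟨k, a, hk, ha0, ha1, ha⟩ := exists_pow h.ne_bot h𝔞'0 h1
  set 𝔠 := 𝔞' ^ (k - 1) with h𝔠
  have hk1 : 𝔞' * 𝔠 = Ideal.span {a} := by
    rw [h𝔠, ← ha, ← pow_succ', Nat.sub_add_cancel hk]
  have h𝔠c : IsCoprime 𝔠 𝔪 := IsCoprime.pow_left h1
  have h𝔠0 : 𝔠 ≠ ⊥ := h.ne_bot_of_coprime h𝔠c
  -- X with X y = x a
  have hid : (𝔞 * 𝔠) * Ideal.span {y} = Ideal.span {x * a} := by
    rw [← Ideal.span_singleton_mul_span_singleton, ← hx, ← hk1, ← hy]; ring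
  have hmem : x * a ∈ Ideal.span {y} := mem_iff_exists_mul.mpr ⟨_, hid⟩
  obtain ⟨X, hX⟩ := Ideal.mem_span_singleton'.mp hmem
  have hXid : Ideal.span {X} = 𝔞 * 𝔠 := by
    have h5 : Ideal.span {X} * Ideal.span {y} = (𝔞 * 𝔠) * Ideal.span {y} := by
      rw [hid, Ideal.span_singleton_mul_span_singleton, hX]
    exact mul_right_cancel₀ (by
      rw [Ne, Ideal.zero_eq_bot, Ideal.span_singleton_eq_bot]; exact hy0) h5
  have hX0 : X ≠ 0 := by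
    rintro rfl
    rw [zero_mul] at hX
    exact mul_ne_zero hx0 ha0 hX.symm
  have hX1 : X - 1 ∈ 𝔪 := by
    have h6 : X - a ∈ 𝔠 * 𝔪 := by
      have h7 : (X - a) * y ∈ Ideal.span {y} * (𝔠 * 𝔪) := by
        have h8 : (X - a) * y = a * (x - y) := by rw [sub_mul, hX]; ring
        rw [h8, ← hy]
        have h9 : a * (x - y) ∈ Ideal.span {a} * (𝔟 * 𝔪) :=
          Ideal.mul_mem_mul (Ideal.mem_span_singleton_self a) hxy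
        rw [← hk1] at h9
        have h10 : 𝔞' * 𝔠 * (𝔟 * 𝔪) = 𝔞' * 𝔟 * (𝔠 * 𝔪) := by ring
        rwa [h10] at h9
      rw [Ideal.mem_span_singleton_mul] at h7
      obtain ⟨z, hz, hz2⟩ := h7
      have : z = X - a := by
        have h11 : y * z = y * (X - a) := by rw [hz2]; ring
        exact mul_left_cancel₀ hy0 h11
      rwa [← this]
    have h12 : X - a ∈ 𝔪 := Ideal.mul_le_right (I := 𝔠) (J := 𝔪) h6
    have : X - 1 = (X - a) + (a - 1) := by ring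
    rw [this]
    exact 𝔪.add_mem h12 ha1
  have e1 := h.sig X hX0 hX1
  have e2 := h.sig a ha0 ha1
  rw [hXid, map_mul] at e1
  rw [← hk1, map_mul] at e2
  have hη𝔠 : η 𝔠 ≠ 0 := (h.supp 𝔠).mpr h𝔠c
  have e3 : sg e (X : K) * sg e (y : K) = sg e (x : K) * sg e (a : K) := by
    rw [← sg_mul, ← sg_mul]
    congr 1
    exact_mod_cast congrArg (algebraMap (𝓞 K) K) hX
  have hsx := sg_sq e (x := (x : K)) (by exact_mod_cast hx0)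
  have hsy := sg_sq e (x := (y : K)) (by exact_mod_cast hy0)
  have e4 : η 𝔞 * sg e (y : K) = η 𝔞' * sg e (x : K) := by
    have : η 𝔠 * (η 𝔞 * sg e (y : K)) = η 𝔠 * (η 𝔞' * sg e (x : K)) := by
      calc _ = (η 𝔞 * η 𝔠) * sg e (y : K) := by ring
        _ = sg e (X : K) * sg e (y : K) := by rw [e1]
        _ = sg e (x : K) * sg e (a : K) := e3
        _ = sg e (x : K) * (η 𝔞' * η 𝔠) := by rw [e2]
        _ = _ := by ring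
    exact mul_left_cancel₀ hη𝔠 this
  calc η 𝔞 * sg e (x : K) = η 𝔞 * sg e (x : K) * (sg e (y : K) * sg e (y : K)) := by rw [hsy, mul_one]
    _ = (η 𝔞 * sg e (y : K)) * sg e (x : K) * sg e (y : K) := by ring
    _ = (η 𝔞' * sg e (x : K)) * sg e (x : K) * sg e (y : K) := by rw [e4]
    _ = η 𝔞' * sg e (y : K) * (sg e (x : K) * sg e (x : K)) := by ring
    _ = _ := by rw [hsx, mul_one]

lemma coprime_iff_of_sub_mem {𝔟 𝔞 𝔞' : Ideal (𝓞 K)} (h𝔟 : 𝔟 ≠ ⊥) {x y : 𝓞 K}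
    (hx : 𝔞 * 𝔟 = Ideal.span {x}) (hy : 𝔞' * 𝔟 = Ideal.span {y}) (hxy : x - y ∈ 𝔟 * 𝔪)
    (h : IsCoprime 𝔞 𝔪) : IsCoprime 𝔞' 𝔪 := by
  rw [Ideal.isCoprime_iff_sup_eq] at h ⊢
  have h1 : 𝔟 * (𝔞' ⊔ 𝔪) = 𝔟 * ⊤ := by
    rw [← h, Ideal.mul_sup, Ideal.mul_sup, mul_comm 𝔟 𝔞, mul_comm 𝔟 𝔞', hx, hy]
    apply le_antisymm
    · refine sup_le ?_ le_sup_right
      rw [Ideal.span_singleton_le_iff_mem]
      have : y = x - (x - y) := by ring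
      rw [this]
      exact Submodule.sub_mem _ (Ideal.mem_sup_left (Ideal.mem_span_singleton_self x))
        (Ideal.mem_sup_right hxy)
    · refine sup_le ?_ le_sup_right
      rw [Ideal.span_singleton_le_iff_mem]
      have : x = y + (x - y) := by ring
      rw [this]
      exact Submodule.add_mem _ (Ideal.mem_sup_left (Ideal.mem_span_singleton_self y))
        (Ideal.mem_sup_right hxy)
  exact mul_left_cancel₀ h𝔟 h1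

lemma IsModChar.per (h : IsModChar 𝔪 e η) {𝔟 : Ideal (𝓞 K)} (h𝔟 : 𝔟 ≠ ⊥) {x y : 𝓞 K}
    (hxy : x - y ∈ 𝔟 * 𝔪) : Ps η e 𝔟 x = Ps η e 𝔟 y := by
  have hxy' : x - y ∈ 𝔟 := Ideal.mul_le_left (I := 𝔟) (J := 𝔪) hxy
  by_cases hx : x ∈ 𝔟
  · have hy : y ∈ 𝔟 := by
      have : y = x - (x - y) := by ring
      rw [this]
      exact 𝔟.sub_mem hx hxy'
    obtain ⟨𝔞, h𝔞⟩ := mem_iff_exists_mul.mp hx
    obtain ⟨𝔞', h𝔞'⟩ := mem_iff_exists_mul.mp hy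
    rw [Ps_of_eq h𝔟 h𝔞, Ps_of_eq h𝔟 h𝔞']
    have hyx : y - x ∈ 𝔟 * 𝔪 := by
      have : y - x = -(x - y) := by ring
      rw [this]
      exact Submodule.neg_mem _ hxy
    by_cases hc : IsCoprime 𝔞 𝔪
    · exact h.per_aux h𝔟 h𝔞 h𝔞' hxy (coprime_iff_of_sub_mem h𝔟 h𝔞 h𝔞' hxy hc) hc
    · have hc' : ¬ IsCoprime 𝔞' 𝔪 := fun h1 => hc (coprime_iff_of_sub_mem h𝔟 h𝔞' h𝔞 hyx h1)
      have e1 : η 𝔞 = 0 := by
        by_contra h1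
        exact hc ((h.supp 𝔞).mp h1)
      have e2 : η 𝔞' = 0 := by
        by_contra h1
        exact hc' ((h.supp 𝔞').mp h1)
      rw [e1, e2, zero_mul, zero_mul]
  · have hy : y ∉ 𝔟 := fun hy => hx (by
      have : x = y + (x - y) := by ring
      rw [this]
      exact 𝔟.add_mem hy hxy')
    rw [Ps_of_notMem hx, Ps_of_notMem hy]

/-- the functions `Ψ_𝔟` of a ray class character -/
lemma IsModChar.nice {𝔪 : Ideal (𝓞 K)} {e : InfinitePlace K → ℕ} {η : Ideal (𝓞 K) →*₀ ℂ}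
    (h : IsModChar 𝔪 e η) {𝔟 : Ideal (𝓞 K)} (h𝔟 : 𝔟 ≠ ⊥) : Nice e (Ps η e 𝔟) where
  he := h.sig_le
  cpx := h.cpx
  bdd := ⟨1, norm_Ps_le h.norm_le_one 𝔟⟩
  zero := by
    have h1 : (⊥ : Ideal (𝓞 K)) * 𝔟 = Ideal.span {(0 : 𝓞 K)} := by
      rw [Ideal.bot_mul, Ideal.span_singleton_eq_bot.mpr rfl]
    rw [Ps_of_eq h𝔟 h1, ← Ideal.zero_eq_bot, map_zero, zero_mul]
  unit := Ps_unit_smul 𝔟

end

end Pool.Agent.Y773.G
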