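import Pool.Agent.Y773.HG.Per
import Pool.Agent.Y773.HK.Sq

/-! # Sums over quotients by ideals, and the orthogonality relation -/

set_option autoImplicit false
set_option linter.unusedSectionVars false

open NumberField Complex Filter Topology Set

namespace Pool.Agent.Y773.G

section

variable {K : Type} [Field K] [NumberField K]

variable {𝔪 : Ideal (𝓞 K)} {e : InfinitePlace K → ℕ} {η : Ideal (𝓞 K) →*₀ ℂ}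

lemma Ps_scale {𝔟₁ 𝔟₂ : Ideal (𝓞 K)} {a b : 𝓞 K} (hb : b ≠ 0) (h1 : 𝔟₁ ≠ ⊥)
    (h2 : 𝔟₂ ≠ ⊥) (hab : Ideal.span {a} * 𝔟₁ = Ideal.span {b} * 𝔟₂) {x y : 𝓞 K} (hx : x ∈ 𝔟₁)
    (hy : y ∈ 𝔟₂) (hxy : a * x = b * y) :
    Ps η e 𝔟₁ x * sg e (a : K) = Ps η e 𝔟₂ y * sg e (b : K) := by
  obtain ⟨𝔞, h𝔞⟩ := mem_iff_exists_mul.mp hx
  obtain ⟨𝔞', h𝔞'⟩ := mem_iff_exists_mul.mp hy
  rw [Ps_of_eq h1 h𝔞, Ps_of_eq h2 h𝔞']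
  have h3 : 𝔞 = 𝔞' := by
    have h4 : 𝔞 * (Ideal.span {b} * 𝔟₂) = 𝔞' * (Ideal.span {b} * 𝔟₂) := by
      calc _ = Ideal.span {a} * (𝔞 * 𝔟₁) := by rw [← hab]; ring
        _ = Ideal.span {b} * (𝔞' * 𝔟₂) := by
          rw [h𝔞, h𝔞', Ideal.span_singleton_mul_span_singleton,
            Ideal.span_singleton_mul_span_singleton, hxy]
        _ = _ := by ring
    refine mul_right_cancel₀ (mul_ne_zero ?_ h2) h4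
    rw [Ne, Ideal.zero_eq_bot, Ideal.span_singleton_eq_bot]; exact hb
  rw [h3, mul_assoc, mul_assoc, ← sg_mul, ← sg_mul]
  congr 2
  have := congrArg (algebraMap (𝓞 K) K) hxy
  push_cast at this
  rw [mul_comm, mul_comm (y : K)]
  exact_mod_cast this

lemma Ps_mul {𝔟 𝔤 : Ideal (𝓞 K)} (h1 : 𝔟 ≠ ⊥) (h2 : 𝔤 ≠ ⊥) {x : 𝓞 K} (hx : x ∈ 𝔟 * 𝔤) :
    Ps η e 𝔟 x = η 𝔤 * Ps η e (𝔟 * 𝔤) x := by
  obtain ⟨𝔞, h𝔞⟩ := mem_iff_exists_mul.mp hx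
  have h3 : (𝔞 * 𝔤) * 𝔟 = Ideal.span {x} := by rw [← h𝔞]; ring
  rw [Ps_of_eq h1 h3, Ps_of_eq (mul_ne_zero h1 h2) h𝔞, map_mul]
  ring

lemma IsModChar.perI (h : IsModChar 𝔪 e η) {𝔟 : Ideal (𝓞 K)} (h𝔟 : 𝔟 ≠ ⊥) :
    PerI (𝔟 * 𝔪) (Ps η e 𝔟) := fun _ _ hxy => h.per h𝔟 hxy

/-- multiplication by an ideal prime to the modulus -/
lemma IsModChar.SQ_mul (h : IsModChar 𝔪 e η) {𝔟 𝔤 : Ideal (𝓞 K)} (h1 : 𝔟 ≠ ⊥) (h2 : IsCoprime 𝔤 𝔪)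
    {φ : 𝓞 K → ℂ} (hφ : PerI (𝔟 * 𝔪) φ) :
    SQ (𝔟 * 𝔪) (fun x => Ps η e 𝔟 x * φ x) =
      η 𝔤 * SQ (𝔟 * 𝔤 * 𝔪) (fun x => Ps η e (𝔟 * 𝔤) x * φ x) := by
  have h𝔤 := h.ne_bot_of_coprime h2
  rw [← SQ_inter (𝔟 := 𝔟) (𝔪 := 𝔪) (𝔤 := 𝔤) h2 (f := fun x => Ps η e 𝔟 x * φ x)
    (g := fun x => η 𝔤 * (Ps η e (𝔟 * 𝔤) x * φ x))]
  · unfold SQ
    have hne : 𝔟 * 𝔤 * 𝔪 ≠ ⊥ := mul_ne_zero (mul_ne_zero h1 h𝔤) h.ne_bot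
    have : Finite (𝓞 K ⧸ (𝔟 * 𝔤 * 𝔪)) := Ideal.finiteQuotientOfFreeOfNeBot _ hne
    rw [mul_finsum]
  · intro x y hxy
    change Ps η e 𝔟 x * φ x = Ps η e 𝔟 y * φ y
    rw [h.perI h1 x y hxy, hφ x y hxy]
  · intro x hx
    change Ps η e 𝔟 x * φ x = 0
    rw [Ps_of_notMem hx, zero_mul]
  · intro x hx
    change η 𝔤 * (Ps η e (𝔟 * 𝔤) x * φ x) = Ps η e 𝔟 x * φ x
    rw [Ps_mul h1 h𝔤 hx]
    ring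
  · intro x hx
    change η 𝔤 * (Ps η e (𝔟 * 𝔤) x * φ x) = 0
    rw [Ps_of_notMem hx, zero_mul, mul_zero]

end

theorem t_orth (K : Type) [Field K] [NumberField K] (𝔪 : Ideal (𝓞 K))
    (η : Ideal (𝓞 K) →*₀ ℂ) (h : IsModChar 𝔪 (fun _ => 0) η)
    (hne : ∃ 𝔞, IsCoprime 𝔞 𝔪 ∧ η 𝔞 ≠ 1)
    (𝔟 : ClassGroup (𝓞 K) → Ideal (𝓞 K)) (h0 : ∀ c, 𝔟 c ≠ ⊥)
    (hmk : ∀ c, ClassGroup.mk0 ⟨𝔟 c, mem_nonZeroDivisors_of_ne_zero (h0 c)⟩ = c)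
    (m : ℕ) (hm : 0 < m) (hm𝔟 : ∀ c, (m : 𝓞 K) ∈ 𝔟 c * 𝔪) :
    ∑ c, (Ideal.absNorm (𝔟 c) : ℂ) *
      ∑ᶠ r : 𝓞 K ⧸ Ideal.span {(m : 𝓞 K)}, Ps η (fun _ => 0) (𝔟 c) (Quotient.out r) = 0 := by
  obtain ⟨𝔤, h𝔤, hη𝔤⟩ := hne
  classical
  have h𝔤0 := h.ne_bot_of_coprime h𝔤
  set U : Ideal (𝓞 K) → ℂ := fun 𝔟 => SQ (𝔟 * 𝔪) (Ps η (fun _ => 0) 𝔟) with hU
  have hmne : Ideal.span {(m : 𝓞 K)} ≠ ⊥ := span_m_ne_bot hm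
  have hN𝔪 : (Ideal.absNorm 𝔪 : ℂ) ≠ 0 := by
    exact_mod_cast (fun h1 => h.ne_bot (Ideal.absNorm_eq_zero_iff.mp h1))
  have hsg : ∀ x : K, sg (fun _ : InfinitePlace K => 0) x = 1 := by
    intro x
    unfold sg
    simp
  -- step 1
  have s1 : ∀ c, (Ideal.absNorm (𝔟 c) : ℂ) *
      ∑ᶠ r : 𝓞 K ⧸ Ideal.span {(m : 𝓞 K)}, Ps η (fun _ => 0) (𝔟 c) (Quotient.out r) =
      (Ideal.absNorm (Ideal.span {(m : 𝓞 K)}) : ℂ) / (Ideal.absNorm 𝔪 : ℂ) * U (𝔟 c) := by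
    intro c
    have hle : Ideal.span {(m : 𝓞 K)} ≤ 𝔟 c * 𝔪 :=
      (Ideal.span_singleton_le_iff_mem _).mpr (hm𝔟 c)
    have h2 := SQ_mono hmne hle (h.perI (h0 c))
    rw [map_mul, Nat.cast_mul] at h2
    have h3 : SQ (Ideal.span {(m : 𝓞 K)}) (Ps η (fun _ => 0) (𝔟 c)) =
      ∑ᶠ r : 𝓞 K ⧸ Ideal.span {(m : 𝓞 K)}, Ps η (fun _ => 0) (𝔟 c) (Quotient.out r) := rfl
    rw [← h3, div_mul_eq_mul_div, eq_div_iff hN𝔪]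
    rw [hU]
    linear_combination h2
  rw [Finset.sum_congr rfl fun c _ => s1 c, ← Finset.mul_sum]
  -- step 2
  set g : ClassGroup (𝓞 K) := ClassGroup.mk0 ⟨𝔤, mem_nonZeroDivisors_of_ne_zero h𝔤0⟩ with hg
  have s2 : ∀ c, U (𝔟 c) = η 𝔤 * U (𝔟 (c * g)) := by
    intro c
    have hne : 𝔟 c * 𝔤 ≠ ⊥ := mul_ne_zero (h0 c) h𝔤0
    have e1 : ClassGroup.mk0 ⟨𝔟 c * 𝔤, mem_nonZeroDivisors_of_ne_zero hne⟩ =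
        ClassGroup.mk0 ⟨𝔟 (c * g), mem_nonZeroDivisors_of_ne_zero (h0 (c * g))⟩ := by
      rw [hmk (c * g)]
      have : (⟨𝔟 c * 𝔤, mem_nonZeroDivisors_of_ne_zero hne⟩ : nonZeroDivisors (Ideal (𝓞 K))) =
        ⟨𝔟 c, mem_nonZeroDivisors_of_ne_zero (h0 c)⟩ * ⟨𝔤, mem_nonZeroDivisors_of_ne_zero h𝔤0⟩ := rfl
      rw [this, map_mul, hmk c, hg]
    rw [ClassGroup.mk0_eq_mk0_iff] at e1
    obtain ⟨a, b, ha, hb, hab⟩ := e1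
    have hab' : Ideal.span {a} * (𝔟 c * 𝔤) = Ideal.span {b} * 𝔟 (c * g) := hab
    have e2 := h.SQ_mul (h0 c) h𝔤 (φ := fun _ => 1) (fun _ _ _ => rfl)
    simp only [mul_one] at e2
    have e3 : SQ (𝔟 c * 𝔤 * 𝔪) (Ps η (fun _ => 0) (𝔟 c * 𝔤)) =
        SQ (𝔟 (c * g) * 𝔪) (Ps η (fun _ => 0) (𝔟 (c * g))) := by
      refine SQ_scale ha hb hab' (h.perI hne) (h.perI (h0 _)) (fun x hx => Ps_of_notMem hx)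
        (fun x hx => Ps_of_notMem hx) ?_
      intro x hx y hy hxy
      have := Ps_scale (η := η) (e := fun _ => 0) hb hne (h0 (c * g)) hab' hx hy hxy
      rwa [hsg, hsg, mul_one, mul_one] at this
    rw [hU]
    simp only
    rw [e2, ← e3]
  have s3 : ∑ c, U (𝔟 c) = η 𝔤 * ∑ c, U (𝔟 c) := by
    calc ∑ c, U (𝔟 c) = ∑ c, η 𝔤 * U (𝔟 (c * g)) := Finset.sum_congr rfl fun c _ => s2 c
      _ = η 𝔤 * ∑ c, U (𝔟 (c * g)) := by rw [Finset.mul_sum]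
      _ = _ := by
        congr 1
        exact Equiv.sum_comp (Equiv.mulRight g) (fun c => U (𝔟 c))
  have s4 : ∑ c, U (𝔟 c) = 0 := by
    have : (1 - η 𝔤) * ∑ c, U (𝔟 c) = 0 := by linear_combination s3
    rcases mul_eq_zero.mp this with h5 | h5
    · exact absurd (sub_eq_zero.mp h5).symm hη𝔤
    · exact h5
  rw [s4, mul_zero]

end Pool.Agent.Y773.G
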