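import Pool.Agent.Y773.HG.Cty
import Pool.Agent.Y773.HK.Unf2

/-! # The Mellin transform of the theta series: unfolding (arbitrary signature) -/

set_option autoImplicit false
set_option linter.unusedSectionVars false

open NumberField Complex Filter Topology MeasureTheory Set
open NumberField.Units NumberField.Units.dirichletUnitTheorem

namespace Pool.Agent.Y773.G

variable {K : Type} [Field K] [NumberField K]

lemma continuous_Fx (e : InfinitePlace K → ℕ) (s : ℂ) (b : InfinitePlace K → ℝ) :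
    Continuous (Fx e s b) := by
  unfold Fx
  have h1 : Continuous (el K) := (el K).continuous_of_finiteDimensional
  refine (Complex.continuous_ofReal.comp ((continuous_G0 e).comp (continuous_pi fun w => ?_))).mul
    (by fun_prop)
  exact (Real.continuous_exp.comp (((continuous_apply w).comp h1).div_const 2)).mul continuous_const

lemma norm_Fx (e : InfinitePlace K → ℕ) (s : ℂ) {b : InfinitePlace K → ℝ} (hb : ∀ w, 0 < b w)
    (p : PP K) : (‖Fx e s b p‖ : ℂ) = Fx e (s.re : ℂ) b p := by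
  unfold Fx
  rw [norm_mul, Complex.norm_real, Real.norm_eq_abs, abs_of_nonneg, Complex.norm_exp]
  · push_cast
    congr 2
    have : (Module.finrank ℚ K * s * p.1 / 2 : ℂ).re = Module.finrank ℚ K * s.re * p.1 / 2 := by
      simp
    rw [this]
    push_cast
    rfl
  · unfold G0 g0
    exact Finset.prod_nonneg fun w _ => mul_nonneg
      (pow_nonneg (mul_nonneg (Real.exp_pos _).le (hb w).le) _) (Real.exp_pos _).le

/-- the total integral -/
lemma int_Fx0 (K : Type) [Field K] [NumberField K] : ∃ c : ℝ, 0 < c ∧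
    ∀ (e : InfinitePlace K → ℕ) (s : ℂ), 0 < s.re → ∀ b : InfinitePlace K → ℝ, (∀ w, 0 < b w) →
      Integrable (Fx e s b) ∧
      ∫ p, Fx e s b p = c * ((∏ w, (b w : ℂ) ^ (-((w.mult : ℂ) * s))) *
        ∏ w, Complex.Gammaℝ ((w.mult : ℂ) * s + e w)) := by
  have := isHaar_PP K
  obtain ⟨c, hc, h1, -, h3⟩ := exists_vol_gen (volume : Measure (PP K))
    (volume : Measure (InfinitePlace K → ℝ)) (elE K)
  refine ⟨c, hc, fun e s hs b hb => ?_⟩
  have hs' : ∀ w : InfinitePlace K, 0 < ((w.mult : ℂ) * s).re := by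
    intro w
    have h4 : ((w.mult : ℂ) * s).re = (w.mult : ℝ) * s.re := by simp
    rw [h4]
    have : (0 : ℝ) < w.mult := by exact_mod_cast w.mult_pos
    positivity
  set f : (InfinitePlace K → ℝ) → ℂ := fun y =>
    ∏ w, (((g0 (e w) (Real.exp (y w / 2) * b w) : ℝ) : ℂ) *
      cexp ((w.mult : ℂ) * s * y w / 2)) with hf
  have hF : Fx e s b = fun p => f (elE K p) := by
    funext p
    simp only [hf, Fx]
    rw [Finset.prod_mul_distrib, ← Complex.exp_sum, elE_apply]
    unfold G0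
    push_cast
    congr 2
    have h4 := sum_el K p
    have h5 : (∑ w : InfinitePlace K, (w.mult : ℂ) * s * (el K p w : ℂ) / 2) =
        s / 2 * ((Module.finrank ℚ K * p.1 : ℝ) : ℂ) := by
      rw [← h4]
      push_cast
      rw [Finset.mul_sum]
      exact Finset.sum_congr rfl fun w _ => by ring
    rw [h5]
    push_cast
    ring
  have hint : Integrable f := by
    apply Integrable.fintype_prod (f := fun (w : InfinitePlace K) (v : ℝ) =>
      ((g0 (e w) (Real.exp (v / 2) * b w) : ℝ) : ℂ) * cexp ((w.mult : ℂ) * s * v / 2))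
    intro w
    exact (local_int (hs' w) (hb w)).1
  rw [hF]
  refine ⟨h3 f hint, ?_⟩
  rw [h1 f, hf, integral_fintype_prod_volume_eq_prod (fun (w : InfinitePlace K) (v : ℝ) =>
      ((g0 (e w) (Real.exp (v / 2) * b w) : ℝ) : ℂ) * cexp ((w.mult : ℂ) * s * v / 2)),
      ← Finset.prod_mul_distrib]
  congr 1
  exact Finset.prod_congr rfl fun w _ => (local_int (hs' w) (hb w)).2

/-! ### gamma factors -/

open Classical in
lemma prod_ex {M : Type} [CommMonoid M] (e : InfinitePlace K → ℕ) (f : ℕ → M) :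
    ∏ φ : K →+* ℂ, f (ex e φ) = ∏ w : InfinitePlace K,
      if w.IsReal then f (e w) else f 0 * f 1 := by
  rw [prod_emb]
  refine Finset.prod_congr rfl fun w _ => ?_
  split_ifs with hw
  · congr 1
    unfold ex
    rw [w.mk_embedding, if_pos hw]
  · have h1 : ex e w.embedding = 0 := by
      unfold ex
      rw [w.mk_embedding, if_neg hw, if_pos rfl]
    have hne : w.embedding ≠ cj w.embedding := by
      intro h
      apply hw
      rw [InfinitePlace.isReal_iff]
      exact h.symm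
    have h2 : ex e (cj w.embedding) = 1 := by
      unfold ex
      rw [mk_cj, w.mk_embedding, if_neg hw, if_neg hne]
    rw [h1, h2]

/-- the local factor at one place -/
lemma loc_gam {w : InfinitePlace K} (hw : ¬ w.IsReal) (s : ℂ) :
    (((Real.sqrt (w.mult : ℝ) : ℝ) : ℂ)) ^ (-((w.mult : ℂ) * s)) *
      Complex.Gammaℝ ((w.mult : ℂ) * s) =
      (2 : ℂ)⁻¹ * (Complex.Gammaℝ (s + (0 : ℕ)) * Complex.Gammaℝ (s + (1 : ℕ))) := by
  have hc : w.IsComplex := InfinitePlace.not_isReal_iff_isComplex.mp hw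
  rw [hc.mult_eq_two]
  push_cast
  rw [add_zero, Complex.Gammaℝ_mul_Gammaℝ_add_one, Complex.Gammaℂ_def, Complex.Gammaℝ_def]
  have h1 : (((Real.sqrt 2 : ℝ) : ℂ)) ^ (-(2 * s)) = (2 : ℂ) ^ (-s) := by
    have h2 : (0 : ℝ) < Real.sqrt 2 := Real.sqrt_pos.mpr two_pos
    rw [Complex.cpow_def_of_ne_zero (by exact_mod_cast h2.ne'), ← Complex.ofReal_log h2.le,
      Real.log_sqrt (by norm_num), Complex.cpow_def_of_ne_zero two_ne_zero]
    congr 1
    have h3 : Complex.log 2 = ((Real.log 2 : ℝ) : ℂ) := by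
      rw [Complex.ofReal_log (by norm_num)]
      norm_num
    rw [h3]
    push_cast
    ring
  rw [h1]
  have h4 : (2 * (Real.pi : ℂ)) ^ (-s) = (2 : ℂ) ^ (-s) * (Real.pi : ℂ) ^ (-s) := by
    have := Complex.mul_cpow_ofReal_nonneg (a := 2) (b := Real.pi) (by norm_num) Real.pi_pos.le (-s)
    push_cast at this
    exact this
  rw [h4]
  have h5 : -(2 * s) / 2 = -s := by ring
  have h6 : 2 * s / 2 = s := by ring
  rw [h5, h6]
  ring

/-- the constant `2^{-r₂}` -/
noncomputable def c2 (K : Type) [Field K] [NumberField K] : ℝ :=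
  ∏ w : InfinitePlace K, (w.mult : ℝ)⁻¹

lemma c2_pos : 0 < c2 K := Finset.prod_pos fun w _ => by
  have : (0 : ℝ) < w.mult := by exact_mod_cast w.mult_pos
  positivity

lemma gam_eq {e : InfinitePlace K → ℕ} (hc : ∀ w : InfinitePlace K, w.IsComplex → e w = 0) (s : ℂ) :
    (∏ w : InfinitePlace K, (((Real.sqrt (w.mult : ℝ) : ℝ) : ℂ)) ^ (-((w.mult : ℂ) * s))) *
      ∏ w : InfinitePlace K, Complex.Gammaℝ ((w.mult : ℂ) * s + e w) =
      (c2 K : ℂ) * ∏ φ : K →+* ℂ, Complex.Gammaℝ (s + ex e φ) := by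
  classical
  rw [prod_ex e (fun k => Complex.Gammaℝ (s + (k : ℕ))), ← Finset.prod_mul_distrib]
  unfold c2
  push_cast
  rw [← Finset.prod_mul_distrib]
  refine Finset.prod_congr rfl fun w _ => ?_
  by_cases hw : w.IsReal
  · rw [if_pos hw, hw.mult_eq_one]
    simp
  · have hc' : w.IsComplex := InfinitePlace.not_isReal_iff_isComplex.mp hw
    rw [if_neg hw, hc w hc']
    have := loc_gam hw s
    rw [Nat.cast_zero, add_zero, this]
    push_cast
    rw [hc'.mult_eq_two]
    push_cast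
    ring

/-! ### principal ideals and units -/

lemma xE_apply (J : PIdl K) (ζ : torsion K) (m : Fin (rank K) → ℤ) :
    (xE K (J, (ζ, m))).1 = (unE K (ζ, m) : 𝓞 K) * gen J := rfl

lemma toP_xE (J : PIdl K) (z : torsion K × (Fin (rank K) → ℤ)) : toP (xE K (J, z)) = J := by
  apply Subtype.ext
  change Ideal.span {(unE K z : 𝓞 K) * gen J} = J.1
  rw [← span_gen J, Ideal.span_singleton_eq_span_singleton]
  exact associated_unit_mul_left _ _ (unE K z).isUnit

/-- normalised absolute values of an integer -/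
noncomputable def av (x : 𝓞 K) (w : InfinitePlace K) : ℝ := Real.sqrt (w.mult : ℝ) * w (x : K)

lemma sqrt_mult_pos (w : InfinitePlace K) : 0 < Real.sqrt (w.mult : ℝ) :=
  Real.sqrt_pos.mpr (by exact_mod_cast w.mult_pos)

lemma av_pos {x : 𝓞 K} (hx : x ≠ 0) (w : InfinitePlace K) : 0 < av x w := by
  unfold av
  refine mul_pos (sqrt_mult_pos w) ?_
  rw [InfinitePlace.pos_iff]
  exact RingOfIntegers.coe_ne_zero_iff.mpr hx

lemma Fx_unit (e : InfinitePlace K → ℕ) (s : ℂ) (J : PIdl K) (ζ : torsion K)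
    (m : Fin (rank K) → ℤ) (p : PP K) :
    Fx e s (av (xE K (J, (ζ, m))).1) p = Fx e s (av (gen J)) (p.1, p.2 + lp m) := by
  unfold Fx
  congr 4
  funext w
  have h1 : av (xE K (J, (ζ, m))).1 w =
      Real.exp (∑ i, (m i : ℝ) * Real.log (w ((fundSystem K i : (𝓞 K)ˣ) : K))) * av (gen J) w := by
    unfold av
    rw [xE_apply]
    have : (((unE K (ζ, m) : (𝓞 K)ˣ) * gen J : 𝓞 K) : K) =
      ((unE K (ζ, m) : (𝓞 K)ˣ) : K) * (gen J : K) := map_mul (algebraMap (𝓞 K) K) _ _
    rw [this, map_mul, place_unE]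
    ring
  rw [h1, ← mul_assoc, ← Real.exp_add]
  congr 2
  simp only [el, LinearMap.coe_mk, AddHom.coe_mk, Pi.add_apply, lp, add_mul,
    Finset.sum_add_distrib]
  have h2 : ∑ i, (m i : ℝ) * (2 * Real.log (w ((fundSystem K i : (𝓞 K)ˣ) : K))) =
      2 * ∑ i, (m i : ℝ) * Real.log (w ((fundSystem K i : (𝓞 K)ˣ) : K)) := by
    rw [Finset.mul_sum]
    exact Finset.sum_congr rfl fun i _ => by ring
  rw [h2]
  ring

lemma prod_cpow {f : InfinitePlace K → ℝ} (hf : ∀ w, 0 < f w) (s : ℂ) :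
    ∏ w, ((f w : ℝ) : ℂ) ^ s = ((∏ w, f w : ℝ) : ℂ) ^ s := by
  have hp : 0 < ∏ w, f w := Finset.prod_pos fun w _ => hf w
  rw [Complex.cpow_def_of_ne_zero (by exact_mod_cast hp.ne'), ← Complex.ofReal_log hp.le,
    Real.log_prod (fun w _ => (hf w).ne')]
  push_cast
  rw [Finset.sum_mul, Complex.exp_sum]
  refine Finset.prod_congr rfl fun w _ => ?_
  rw [Complex.cpow_def_of_ne_zero (by exact_mod_cast (hf w).ne'), ← Complex.ofReal_log (hf w).le]

lemma prod_av {x : 𝓞 K} (hx : x ≠ 0) (s : ℂ) :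
    ∏ w, ((av x w : ℝ) : ℂ) ^ (-((w.mult : ℂ) * s)) =
      (∏ w : InfinitePlace K, (((Real.sqrt (w.mult : ℝ) : ℝ) : ℂ)) ^ (-((w.mult : ℂ) * s))) *
        ((Ideal.absNorm (Ideal.span {x}) : ℕ) : ℂ) ^ (-s) := by
  have hpos : ∀ w : InfinitePlace K, 0 < w (x : K) := fun w => by
    rw [InfinitePlace.pos_iff]
    exact RingOfIntegers.coe_ne_zero_iff.mpr hx
  have h1 : ∏ w : InfinitePlace K, (w (x : K)) ^ w.mult = (Ideal.absNorm (Ideal.span {x}) : ℝ) := by
    rw [InfinitePlace.prod_eq_abs_norm, Ideal.absNorm_span_singleton, ← Algebra.coe_norm_int]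
    rw [Nat.cast_natAbs]
    push_cast
    rfl
  have h2 : ((Ideal.absNorm (Ideal.span {x}) : ℕ) : ℂ) =
      ((∏ w : InfinitePlace K, (w (x : K)) ^ w.mult : ℝ) : ℂ) := by
    rw [h1]
    push_cast
    rfl
  rw [h2, ← prod_cpow (fun w => pow_pos (hpos w) _), ← Finset.prod_mul_distrib]
  refine Finset.prod_congr rfl fun w _ => ?_
  unfold av
  have h3 : ((((w (x : K)) ^ w.mult : ℝ)) : ℂ) ^ (-s) = ((w (x : K) : ℝ) : ℂ) ^ (-((w.mult : ℂ) * s)) := by
    have hw := hpos w
    rw [Complex.cpow_def_of_ne_zero (by exact_mod_cast (pow_pos hw _).ne'),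
      ← Complex.ofReal_log (pow_pos hw _).le, Real.log_pow,
      Complex.cpow_def_of_ne_zero (by exact_mod_cast hw.ne'), ← Complex.ofReal_log hw.le]
    congr 1
    push_cast
    ring
  rw [h3]
  have h4 := Complex.mul_cpow_ofReal_nonneg (sqrt_mult_pos w).le (hpos w).le (-((w.mult : ℂ) * s))
  push_cast at h4 ⊢
  exact h4

/-- the total integral of an integer -/
lemma int_Fx (K : Type) [Field K] [NumberField K] : ∃ c : ℝ, 0 < c ∧
    ∀ (e : InfinitePlace K → ℕ), (∀ w : InfinitePlace K, w.IsComplex → e w = 0) →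
      ∀ (s : ℂ), 0 < s.re → ∀ x : 𝓞 K, x ≠ 0 →
      Integrable (Fx e s (av x)) ∧
      ∫ p, Fx e s (av x) p = c * (((Ideal.absNorm (Ideal.span {x}) : ℕ) : ℂ) ^ (-s) *
        ∏ φ : K →+* ℂ, Complex.Gammaℝ (s + ex e φ)) := by
  obtain ⟨c, hc, h⟩ := int_Fx0 K
  refine ⟨c * c2 K, mul_pos hc c2_pos, fun e he s hs x hx => ?_⟩
  obtain ⟨h1, h2⟩ := h e s hs (av x) (av_pos hx)
  refine ⟨h1, ?_⟩
  rw [h2, prod_av hx, mul_right_comm, gam_eq he]
  push_cast
  ring

end Pool.Agent.Y773.G
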