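import Pool.Agent.Y773.HG.Unf2

/-! # The Mellin transform of the theta series: the main unfolding theorem -/

set_option autoImplicit false
set_option maxHeartbeats 1000000
set_option linter.unusedSectionVars false

open NumberField Complex Filter Topology MeasureTheory Set
open NumberField.Units NumberField.Units.dirichletUnitTheorem

namespace Pool.Agent.Y773.G

variable {K : Type} [Field K] [NumberField K]

lemma summable_ideals {σ : ℝ} (hσ : 1 < σ) :
    Summable fun I : {I : Ideal (𝓞 K) // I ≠ ⊥} => (Ideal.absNorm I.1 : ℝ) ^ (-σ) := by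
  have h := (Pool.Agent.H484R2.hasSum_ideals K (s := (σ : ℂ)) (by simpa using hσ)).summable.norm
  refine h.congr fun I => ?_
  have hI : Ideal.absNorm I.1 ≠ 0 := by rw [Ne, Ideal.absNorm_eq_zero_iff]; exact I.2
  rw [Complex.norm_natCast_cpow_of_pos (Nat.pos_of_ne_zero hI)]
  simp

lemma norm_absNorm_cpow {I : Ideal (𝓞 K)} (hI : I ≠ ⊥) (s : ℂ) :
    ‖((Ideal.absNorm I : ℕ) : ℂ) ^ (-s)‖ = (Ideal.absNorm I : ℝ) ^ (-s.re) := by
  have hI : Ideal.absNorm I ≠ 0 := by rw [Ne, Ideal.absNorm_eq_zero_iff]; exact hI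
  rw [Complex.norm_natCast_cpow_of_pos (Nat.pos_of_ne_zero hI)]
  simp

lemma summable_PIdl {σ : ℝ} (hσ : 1 < σ) :
    Summable fun J : PIdl K => (Ideal.absNorm J.1 : ℝ) ^ (-σ) := by
  have h := summable_ideals (K := K) hσ
  exact h.comp_injective (i := fun J : PIdl K => (⟨J.1, J.2.1⟩ : {I : Ideal (𝓞 K) // I ≠ ⊥}))
    (fun J J' h => Subtype.ext (congrArg (fun I : {I : Ideal (𝓞 K) // I ≠ ⊥} => I.1) h))

lemma measurableSet_S0 (K : Type) [Field K] [NumberField K] : MeasurableSet (S0 K) := by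
  have : S0 K = ⋂ i, {p : PP K | ⌊p.2 i⌋ = 0} := by
    ext p
    simp [S0]
  rw [this]
  refine MeasurableSet.iInter fun i => ?_
  have h1 : Measurable fun p : PP K => ⌊p.2 i⌋ :=
    Int.measurable_floor.comp ((measurable_pi_apply i).comp measurable_snd)
  exact h1 (measurableSet_singleton (0 : ℤ))

/-- the sum over the units -/
lemma unfold_J {c : ℝ} (hint : ∀ (e : InfinitePlace K → ℕ),
      (∀ w : InfinitePlace K, w.IsComplex → e w = 0) →
      ∀ (s : ℂ), 0 < s.re → ∀ x : 𝓞 K, x ≠ 0 →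
      Integrable (Fx e s (av x)) ∧
      ∫ p, Fx e s (av x) p = c * (((Ideal.absNorm (Ideal.span {x}) : ℕ) : ℂ) ^ (-s) *
        ∏ φ : K →+* ℂ, Complex.Gammaℝ (s + ex e φ)))
    (e : InfinitePlace K → ℕ) (he : ∀ w : InfinitePlace K, w.IsComplex → e w = 0)
    {s : ℂ} (hs : 0 < s.re) (J : PIdl K) :
    HasSum (fun z : torsion K × (Fin (rank K) → ℤ) =>
      ∫ p in S0 K, Fx e s (av (xE K (J, z)).1) p)
      ((Nat.card (torsion K) : ℂ) * (c * (((Ideal.absNorm J.1 : ℕ) : ℂ) ^ (-s) *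
        ∏ φ : K →+* ℂ, Complex.Gammaℝ (s + ex e φ)))) := by
  classical
  have : Fintype (torsion K) := Fintype.ofFinite _
  obtain ⟨h1, h2⟩ := hint e he s hs (gen J) (gen_ne_zero J)
  rw [span_gen] at h2
  have h3 := unfold_P _ h1
  rw [h2] at h3
  set W : ℂ := c * (((Ideal.absNorm J.1 : ℕ) : ℂ) ^ (-s) * ∏ φ : K →+* ℂ, Complex.Gammaℝ (s + ex e φ)) with hW
  have e1 : ∀ ζ m, (∫ p in S0 K, Fx e s (av (xE K (J, (ζ, m))).1) p) =
      ∫ p in {p : PP K | ∀ i, ⌊p.2 i⌋ = 0}, Fx e s (av (gen J)) (p.1, p.2 + lp m) := by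
    intro ζ m
    exact integral_congr_ae (Eventually.of_forall fun p => Fx_unit e s J ζ m p)
  -- summability
  have h5 : Summable fun z : torsion K × (Fin (rank K) → ℤ) =>
      ∫ p in S0 K, Fx e s (av (xE K (J, z)).1) p := by
    refine Summable.of_norm ?_
    refine (summable_prod_of_nonneg (fun z => norm_nonneg _)).mpr ⟨fun ζ => ?_, Summable.of_finite⟩
    simp only [e1]
    exact h3.summable.norm
  have h6 := h5.hasSum
  rw [h5.tsum_prod] at h6
  have h7 : ∀ ζ : torsion K, ∑' m : Fin (rank K) → ℤ,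
      (∫ p in S0 K, Fx e s (av (xE K (J, (ζ, m))).1) p) = W := by
    intro ζ
    simp only [e1]
    exact h3.tsum_eq
  simp only [h7] at h6
  rw [tsum_fintype, Finset.sum_const, nsmul_eq_mul, Finset.card_univ,
    ← Nat.card_eq_fintype_card] at h6
  exact h6

/-- **Unfolding** -/
theorem unf (K : Type) [Field K] [NumberField K] : ∃ C : ℝ, 0 < C ∧
    ∀ (e : InfinitePlace K → ℕ), (∀ w : InfinitePlace K, w.IsComplex → e w = 0) →
      ∀ (A : PIdl K → ℂ) (B : ℝ), (∀ J, ‖A J‖ ≤ B) →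
      ∀ s : ℂ, 1 < s.re →
      (∀ x : {x : 𝓞 K // x ≠ 0},
        Integrable (fun p => A (toP x) * Fx e s (av x.1) p) (volume.restrict (S0 K))) ∧
      (Summable fun x : {x : 𝓞 K // x ≠ 0} =>
        ∫ p in S0 K, ‖A (toP x) * Fx e s (av x.1) p‖) ∧
      ∫ p in S0 K, ∑' x : {x : 𝓞 K // x ≠ 0}, A (toP x) * Fx e s (av x.1) p =
        C * ((∏ φ : K →+* ℂ, Complex.Gammaℝ (s + ex e φ)) *
          ∑' J : PIdl K, A J * ((Ideal.absNorm J.1 : ℕ) : ℂ) ^ (-s)) := by
  classical
  obtain ⟨c, hc, hint⟩ := int_Fx K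
  have htor : 0 < Nat.card (torsion K) := Nat.card_pos
  refine ⟨Nat.card (torsion K) * c, by positivity, fun e he A B hA s hs => ?_⟩
  have hs0 : 0 < s.re := by linarith
  have hB : 0 ≤ B := (norm_nonneg _).trans (hA (toP ⟨1, one_ne_zero⟩))
  have hcount : Countable (𝓞 K) := (coE K).countable_iff.mpr inferInstance
  have hi : ∀ x : {x : 𝓞 K // x ≠ 0},
      Integrable (fun p => A (toP x) * Fx e s (av x.1) p) (volume.restrict (S0 K)) := fun x =>
    ((hint e he s hs0 x.1 x.2).1.const_mul _).restrict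
  -- the integrals of the norms
  set r : {x : 𝓞 K // x ≠ 0} → ℝ := fun x => ∫ p in S0 K, ‖Fx e s (av x.1) p‖ with hr
  have hrc : ∀ x : {x : 𝓞 K // x ≠ 0}, ((r x : ℝ) : ℂ) = ∫ p in S0 K, Fx e (s.re : ℂ) (av x.1) p := by
    intro x
    rw [hr, ← integral_complex_ofReal]
    refine integral_congr_ae (Eventually.of_forall fun p => ?_)
    simp only
    rw [norm_Fx e s (av_pos x.2)]
  set R0 : ℝ := ((Nat.card (torsion K) : ℂ) * (c * ∏ φ : K →+* ℂ, Complex.Gammaℝ ((s.re : ℂ) + ex e φ))).re with hR0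
  have hrJ : ∀ J : PIdl K, HasSum (fun z : torsion K × (Fin (rank K) → ℤ) => r (xE K (J, z)))
      ((Ideal.absNorm J.1 : ℝ) ^ (-s.re) * R0) := by
    intro J
    have h1 := unfold_J hint e he (s := (s.re : ℂ)) (by simpa using hs0) J
    have h2 := Complex.hasSum_re h1
    have h3 : ((Nat.card (torsion K) : ℂ) * (c * (((Ideal.absNorm J.1 : ℕ) : ℂ) ^ (-(s.re : ℂ)) *
        ∏ φ : K →+* ℂ, Complex.Gammaℝ ((s.re : ℂ) + ex e φ)))).re = (Ideal.absNorm J.1 : ℝ) ^ (-s.re) * R0 := by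
      have h4 : (((Ideal.absNorm J.1 : ℕ) : ℂ) ^ (-(s.re : ℂ))) =
          (((Ideal.absNorm J.1 : ℝ) ^ (-s.re) : ℝ) : ℂ) := by
        rw [Complex.ofReal_cpow (Nat.cast_nonneg _)]
        push_cast
        rfl
      rw [h4, hR0, ← Complex.re_ofReal_mul]
      congr 1
      ring
    rw [h3] at h2
    refine h2.congr_fun fun z => ?_
    rw [← hrc, Complex.ofReal_re]
  have hsum : Summable fun x : {x : 𝓞 K // x ≠ 0} =>
      ∫ p in S0 K, ‖A (toP x) * Fx e s (av x.1) p‖ := by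
    have h1 : ∀ x : {x : 𝓞 K // x ≠ 0}, ∫ p in S0 K, ‖A (toP x) * Fx e s (av x.1) p‖ =
        ‖A (toP x)‖ * r x := by
      intro x
      simp_rw [norm_mul]
      rw [integral_const_mul]
    simp_rw [h1]
    have hr0 : ∀ x, 0 ≤ r x := fun x => integral_nonneg fun p => norm_nonneg _
    rw [← (xE K).summable_iff]
    refine (summable_prod_of_nonneg (fun z => mul_nonneg (norm_nonneg _) (hr0 _))).mpr ⟨?_, ?_⟩
    · intro J
      simp only [Function.comp_apply, toP_xE]
      exact (hrJ J).summable.mul_left _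
    · have h2 : ∀ J : PIdl K, ∑' z : torsion K × (Fin (rank K) → ℤ),
          ((fun x : {x : 𝓞 K // x ≠ 0} => ‖A (toP x)‖ * r x) ∘ (xE K)) (J, z) =
          ‖A J‖ * ((Ideal.absNorm J.1 : ℝ) ^ (-s.re) * R0) := by
        intro J
        simp only [Function.comp_apply, toP_xE]
        rw [tsum_mul_left, (hrJ J).tsum_eq]
      have hR0n : 0 ≤ R0 := by
        have h3 := (hrJ (toP ⟨1, one_ne_zero⟩)).nonneg (fun z => hr0 _)
        have h4 : 0 < (Ideal.absNorm (toP (⟨1, one_ne_zero⟩ : {x : 𝓞 K // x ≠ 0})).1 : ℝ) ^ (-s.re) := by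
          apply Real.rpow_pos_of_pos
          have : Ideal.absNorm (toP (⟨1, one_ne_zero⟩ : {x : 𝓞 K // x ≠ 0})).1 ≠ 0 := by
            rw [Ne, Ideal.absNorm_eq_zero_iff]
            exact (toP (⟨1, one_ne_zero⟩ : {x : 𝓞 K // x ≠ 0})).2.1
          exact_mod_cast Nat.pos_of_ne_zero this
        by_contra hneg
        push Not at hneg
        have := mul_neg_of_pos_of_neg h4 hneg
        linarith
      have h8 : Summable fun J : PIdl K => ‖A J‖ * ((Ideal.absNorm J.1 : ℝ) ^ (-s.re) * R0) := by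
        refine Summable.of_nonneg_of_le (fun J => by positivity) (fun J => ?_)
          (((summable_PIdl (K := K) hs).mul_right R0).mul_left B)
        exact mul_le_mul_of_nonneg_right (hA J) (by positivity)
      exact h8.congr fun J => (h2 J).symm
  refine ⟨hi, hsum, ?_⟩
  have h5 := hasSum_integral_of_summable_integral_norm hi hsum
  rw [← h5.tsum_eq, ← (xE K).tsum_eq]
  have h6 : Summable fun z : PIdl K × (torsion K × (Fin (rank K) → ℤ)) =>
      ∫ p in S0 K, A (toP (xE K z)) * Fx e s (av (xE K z).1) p := (xE K).summable_iff.mpr h5.summable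
  rw [h6.tsum_prod, ← tsum_mul_left, ← tsum_mul_left]
  refine tsum_congr fun J => ?_
  simp only [toP_xE]
  have h7 : ∀ z : torsion K × (Fin (rank K) → ℤ), ∫ p in S0 K, A J * Fx e s (av (xE K (J, z)).1) p =
      A J * ∫ p in S0 K, Fx e s (av (xE K (J, z)).1) p := fun z => integral_const_mul _ _
  simp_rw [h7]
  rw [tsum_mul_left, (unfold_J hint e he hs0 J).tsum_eq]
  push_cast
  ring

end Pool.Agent.Y773.G
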