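import Pool.Agent.Y773.HG.Poi3
import Pool.Agent.Y773.HK.Unit

/-! # Units and the domain of integration (arbitrary signature) -/

set_option autoImplicit false
set_option linter.unusedSectionVars false

open NumberField Complex Filter Topology MeasureTheory
open NumberField.Units NumberField.Units.dirichletUnitTheorem

namespace Pool.Agent.Y773.G

open Pool.Agent.Y773 (Idx db el)

variable (K : Type) [Field K] [NumberField K]

lemma sum_el (p : ℝ × (Fin (rank K) → ℝ)) :
    ∑ w : InfinitePlace K, (w.mult : ℝ) * el K p w = Module.finrank ℚ K * p.1 := by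
  simp only [el, LinearMap.coe_mk, AddHom.coe_mk, mul_add]
  rw [Finset.sum_add_distrib]
  have h1 : ∑ w : InfinitePlace K, (w.mult : ℝ) * ∑ i,
      p.2 i * (2 * Real.log (w ((fundSystem K i : (𝓞 K)ˣ) : K))) = 0 := by
    simp_rw [Finset.mul_sum]
    rw [Finset.sum_comm]
    refine Finset.sum_eq_zero fun i _ => ?_
    have h := sum_mult_mul_log (fundSystem K i)
    calc ∑ w : InfinitePlace K, (w.mult : ℝ) *
          (p.2 i * (2 * Real.log (w ((fundSystem K i : (𝓞 K)ˣ) : K))))
        = (2 * p.2 i) * ∑ w : InfinitePlace K, (w.mult : ℝ) *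
          Real.log (w ((fundSystem K i : (𝓞 K)ˣ) : K)) := by
          rw [Finset.mul_sum]
          exact Finset.sum_congr rfl fun w _ => by ring
      _ = 0 := by rw [h, mul_zero]
  rw [h1, add_zero, ← Finset.sum_mul]
  congr 1
  rw [← Nat.cast_sum, InfinitePlace.sum_mult_eq]

lemma el_injective : Function.Injective (el K) := by
  rw [injective_iff_map_eq_zero]
  intro p hp
  have h1 := sum_el K p
  rw [hp] at h1
  simp only [Pi.zero_apply, mul_zero, Finset.sum_const_zero] at h1
  have hn : (Module.finrank ℚ K : ℝ) ≠ 0 := by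
    have := Module.finrank_pos (R := ℚ) (M := K)
    exact_mod_cast this.ne'
  have h2 : p.1 = 0 := by
    rcases mul_eq_zero.mp h1.symm with h | h
    · exact absurd h hn
    · exact h
  classical
  have hB := isMaxRank_fundSystem K
  have h3 : ∑ i, p.2 i • logEmbedding K (Additive.ofMul (fundSystem K i)) = 0 := by
    funext w
    have h4 := congrFun hp w.1
    simp only [el, LinearMap.coe_mk, AddHom.coe_mk, h2, zero_add, Pi.zero_apply] at h4
    rw [Finset.sum_apply]
    have h5 : ∀ i, (p.2 i • logEmbedding K (Additive.ofMul (fundSystem K i))) w =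
        (w.1.mult : ℝ) * (p.2 i * Real.log (w.1 ((fundSystem K i : (𝓞 K)ˣ) : K))) := by
      intro i
      rw [Pi.smul_apply, logEmbedding_component, smul_eq_mul]
      ring
    simp only [h5, Pi.zero_apply]
    rw [← Finset.mul_sum]
    have h6 : ∑ i, p.2 i * (2 * Real.log (w.1 ((fundSystem K i : (𝓞 K)ˣ) : K))) =
        2 * ∑ i, p.2 i * Real.log (w.1 ((fundSystem K i : (𝓞 K)ˣ) : K)) := by
      rw [Finset.mul_sum]
      exact Finset.sum_congr rfl fun i _ => by ring
    rw [h6] at h4
    have h8 : ∑ i, p.2 i * Real.log (w.1 ((fundSystem K i : (𝓞 K)ˣ) : K)) = 0 := by linarith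
    rw [h8, mul_zero]
  have h7 := Fintype.linearIndependent_iff.mp hB p.2 h3
  exact Prod.ext h2 (funext h7)

/-- `el` is an isomorphism -/
noncomputable def elE : (ℝ × (Fin (rank K) → ℝ)) ≃ₗ[ℝ] (InfinitePlace K → ℝ) :=
  LinearEquiv.ofInjectiveOfFinrankEq (el K) (el_injective K) (by
    rw [Module.finrank_prod, Module.finrank_pi, Module.finrank_pi, Module.finrank_self,
      Fintype.card_fin, rank]
    have : 0 < Fintype.card (InfinitePlace K) := Fintype.card_pos
    omega)

lemma elE_apply (p : ℝ × (Fin (rank K) → ℝ)) : elE K p = el K p := rfl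

end Pool.Agent.Y773.G
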